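import Mathlib

namespace Pool.Agent.Lib.MP_a2b538_an.HS

open Finset

variable {𝕜 : Type} [RCLike 𝕜] {X : Type} [NormedAddCommGroup X] [InnerProductSpace 𝕜 X]

/-- the finite sum with coefficients `a` over the index set `A` -/
def S (e : ℕ → X) (A : Finset ℕ) (a : ℕ → 𝕜) : X := ∑ j ∈ A, a j • e j

variable {e : ℕ → X}

theorem S_congr {A : Finset ℕ} {a b : ℕ → 𝕜} (h : ∀ j ∈ A, a j = b j) : S e A a = S e A b :=
  sum_congr rfl fun j hj => by rw [h j hj]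

theorem S_sdiff {A B : Finset ℕ} (h : B ⊆ A) (a : ℕ → 𝕜) :
    S e (A \ B) a = S e A a - S e B a := by
  unfold S; rw [← sum_sdiff h]; abel

theorem S_subset {A B : Finset ℕ} (h : B ⊆ A) {a : ℕ → 𝕜} (ha : ∀ j ∈ A, j ∉ B → a j = 0) :
    S e A a = S e B a :=
  (sum_subset h fun j hj hj' => by rw [ha j hj hj', zero_smul]).symm

theorem S_add (A : Finset ℕ) (a b : ℕ → 𝕜) : S e A (a + b) = S e A a + S e A b := by
  simp [S, add_smul, sum_add_distrib]

theorem S_sub (A : Finset ℕ) (a b : ℕ → 𝕜) : S e A (a - b) = S e A a - S e A b := by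
  simp [S, sub_smul, sum_sub_distrib]

theorem S_smul (A : Finset ℕ) (c : 𝕜) (a : ℕ → 𝕜) : S e A (c • a) = c • S e A a := by
  simp [S, smul_sum, smul_smul]

theorem S_union {A B : Finset ℕ} (h : Disjoint A B) (a : ℕ → 𝕜) :
    S e (A ∪ B) a = S e A a + S e B a := sum_union h

/-- greedy projections of finite sums are bounded by `K` -/
def Gr (𝕜 : Type) [RCLike 𝕜] [InnerProductSpace 𝕜 X] (e : ℕ → X) (K : ℝ) : Prop :=
  ∀ (U G : Finset ℕ) (a : ℕ → 𝕜), G ⊆ U → (∀ n ∈ G, ∀ k ∈ U, k ∉ G → ‖a k‖ ≤ ‖a n‖) →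
    ‖S e G a‖ ≤ K * ‖S e U a‖

theorem signs (𝕜 : Type) [RCLike 𝕜] [InnerProductSpace 𝕜 X] (v : ℕ → X) (D : Finset ℕ) :
    (∃ B ⊆ D, ‖∑ j ∈ B, v j - ∑ j ∈ D \ B, v j‖ ^ 2 ≤ ∑ j ∈ D, ‖v j‖ ^ 2) ∧
    (∃ B ⊆ D, ∑ j ∈ D, ‖v j‖ ^ 2 ≤ ‖∑ j ∈ B, v j - ∑ j ∈ D \ B, v j‖ ^ 2) := by
  induction D using Finset.induction_on with
  | empty => simp
  | insert i D hi ih =>
    have key : ∀ B ⊆ D, (∑ j ∈ insert i B, v j - ∑ j ∈ insert i D \ insert i B, v j
        = (∑ j ∈ B, v j - ∑ j ∈ D \ B, v j) + v i) ∧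
        (∑ j ∈ B, v j - ∑ j ∈ insert i D \ B, v j = (∑ j ∈ B, v j - ∑ j ∈ D \ B, v j) - v i) := by
      intro B hB
      have hiB : i ∉ B := fun h => hi (hB h)
      constructor
      · rw [sum_insert hiB, insert_sdiff_insert, sdiff_insert_of_notMem hi]; abel
      · rw [insert_sdiff_of_notMem _ hiB, sum_insert (fun h => hi (mem_sdiff.1 h).1)]; abel
    obtain ⟨⟨B, hB, h1⟩, ⟨B', hB', h2⟩⟩ := ih
    rw [sum_insert hi]
    constructor
    · have p := parallelogram_law_with_norm 𝕜 (∑ j ∈ B, v j - ∑ j ∈ D \ B, v j) (v i)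
      by_cases h : ‖(∑ j ∈ B, v j - ∑ j ∈ D \ B, v j) + v i‖ ^ 2 ≤
          ‖(∑ j ∈ B, v j - ∑ j ∈ D \ B, v j) - v i‖ ^ 2
      · exact ⟨insert i B, insert_subset_insert _ hB, by rw [(key B hB).1]; linarith⟩
      · exact ⟨B, hB.trans (subset_insert _ _), by rw [(key B hB).2]; linarith⟩
    · have p := parallelogram_law_with_norm 𝕜 (∑ j ∈ B', v j - ∑ j ∈ D \ B', v j) (v i)
      by_cases h : ‖(∑ j ∈ B', v j - ∑ j ∈ D \ B', v j) + v i‖ ^ 2 ≤
          ‖(∑ j ∈ B', v j - ∑ j ∈ D \ B', v j) - v i‖ ^ 2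
      · exact ⟨B', hB'.trans (subset_insert _ _), by rw [(key B' hB').2]; linarith⟩
      · exact ⟨insert i B', insert_subset_insert _ hB', by rw [(key B' hB').1]; linarith⟩

theorem Gr.flip {K : ℝ} (h : Gr 𝕜 e K) {D B : Finset ℕ} (hB : B ⊆ D) {θ : ℕ → 𝕜}
    (hθ : ∀ j, ‖θ j‖ = 1) :
    ‖S e D θ‖ ≤ 2 * K * ‖S e B θ - S e (D \ B) θ‖ ∧
      ‖S e B θ - S e (D \ B) θ‖ ≤ 2 * K * ‖S e D θ‖ := by
  constructor
  · let a : ℕ → 𝕜 := fun j => if j ∈ B then θ j else -θ j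
    have ha : ∀ j, ‖a j‖ = 1 := fun j => by simp only [a]; split_ifs <;> simp [hθ]
    have e1 : S e B a = S e B θ := S_congr fun j hj => if_pos hj
    have e2 : S e (D \ B) a = -S e (D \ B) θ := by
      unfold S
      rw [← sum_neg_distrib]
      exact sum_congr rfl fun j hj => by simp only [a]; rw [if_neg (mem_sdiff.1 hj).2, neg_smul]
    have e3 : S e D a = S e B θ - S e (D \ B) θ := by
      have := S_sdiff (e := e) hB a
      rw [e1, e2] at this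
      rw [sub_eq_add_neg, this]; abel
    have h1 := h D B a hB (fun n _ k _ _ => by rw [ha, ha])
    have h2 := h D (D \ B) a sdiff_subset (fun n _ k _ _ => by rw [ha, ha])
    rw [e1, e3] at h1
    rw [e2, e3, norm_neg] at h2
    have e4 : S e D θ = S e B θ + S e (D \ B) θ := by rw [S_sdiff hB]; abel
    rw [e4] at *
    linarith [norm_add_le (S e B θ) (S e (D \ B) θ)]
  · have h1 := h D B θ hB (fun n _ k _ _ => by rw [hθ, hθ])
    have h2 := h D (D \ B) θ sdiff_subset (fun n _ k _ _ => by rw [hθ, hθ])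
    linarith [norm_sub_le (S e B θ) (S e (D \ B) θ)]

theorem layer (𝕜 : Type) [RCLike 𝕜] [InnerProductSpace 𝕜 X] (v : ℕ → X) {L : ℝ} (hL : 0 ≤ L)
    (D : Finset ℕ) : ∀ (r : ℕ → ℝ) (ρ : ℝ), 0 ≤ ρ → (∀ j ∈ D, 0 ≤ r j ∧ r j ≤ ρ) →
      (∀ s, ‖∑ j ∈ D.filter (fun j => s ≤ r j), v j‖ ≤ L) →
      ‖∑ j ∈ D, (r j : 𝕜) • v j‖ ≤ ρ * L := by
  induction D using Finset.strongInduction with
  | H D ih =>
    intro r ρ hρ hr hs
    rcases D.eq_empty_or_nonempty with rfl | hne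
    · simp; positivity
    obtain ⟨i, hi, hmin⟩ := exists_min_image D r hne
    set D' := D.filter (fun j => r i < r j) with hD'
    have hss : D' ⊂ D := filter_ssubset.2 ⟨i, hi, lt_irrefl _⟩
    have h1 := ih D' hss (fun j => r j - r i) (ρ - r i) (by linarith [(hr i hi).2])
      (fun j hj => ⟨by linarith [(mem_filter.1 hj).2], by linarith [(hr j (mem_filter.1 hj).1).2]⟩)
      (fun s => by
        rcases (D'.filter (fun j => s ≤ r j - r i)).eq_empty_or_nonempty with h0 | h0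
        · rw [h0]; simpa using hL
        obtain ⟨k, hk, hkmin⟩ := exists_min_image _ r h0
        have hk1 := mem_filter.1 hk
        have hk2 := mem_filter.1 hk1.1
        have : D'.filter (fun j => s ≤ r j - r i) = D.filter (fun j => r k ≤ r j) := by
          ext j
          constructor
          · intro hj
            exact mem_filter.2 ⟨(mem_filter.1 (mem_filter.1 hj).1).1, hkmin j hj⟩
          · intro hj
            have := mem_filter.1 hj
            exact mem_filter.2 ⟨mem_filter.2 ⟨this.1, by linarith [hk2.2]⟩, by linarith [hk1.2]⟩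
        rw [this]; exact hs _)
    have h2 := hs (r i)
    rw [filter_true_of_mem hmin] at h2
    have e : ∑ j ∈ D, (r j : 𝕜) • v j =
        (r i : 𝕜) • ∑ j ∈ D, v j + ∑ j ∈ D', ((r j - r i : ℝ) : 𝕜) • v j := by
      rw [hD', sum_filter, smul_sum, ← sum_add_distrib]
      refine sum_congr rfl fun j hj => ?_
      split_ifs with h
      · rw [← add_smul]; congr 1; push_cast; ring
      · rw [le_antisymm (not_lt.1 h) (hmin j hj), add_zero]
    rw [e]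
    refine (norm_add_le _ _).trans ?_
    rw [norm_smul, RCLike.norm_ofReal, abs_of_nonneg (hr i hi).1]
    nlinarith [mul_le_mul_of_nonneg_left h2 (hr i hi).1]

theorem exists_phase (a : ℕ → 𝕜) : ∃ θ : ℕ → 𝕜, ∀ j, ‖θ j‖ = 1 ∧ (‖a j‖ : 𝕜) * θ j = a j := by
  have : ∀ j, ∃ θ : 𝕜, ‖θ‖ = 1 ∧ (‖a j‖ : 𝕜) * θ = a j := by
    intro j
    by_cases h : a j = 0
    · exact ⟨1, by simp, by simp [h]⟩
    · have h' : (‖a j‖ : 𝕜) ≠ 0 := by simpa using h
      exact ⟨a j / ‖a j‖, by simp [h], by field_simp⟩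
  choose θ hθ using this
  exact ⟨θ, hθ⟩

/-- the three facts that are used later, with one constant -/
structure Good (𝕜 : Type) [RCLike 𝕜] [InnerProductSpace 𝕜 X] (e : ℕ → X) (K : ℝ) : Prop where
  one : 1 ≤ K
  gr : Gr 𝕜 e K
  flat : ∀ (D : Finset ℕ) (a : ℕ → 𝕜) (t : ℝ), 0 ≤ t → (∀ j ∈ D, ‖a j‖ ≤ t) →
    ‖S e D a‖ ≤ K * t * √(D.card)
  weak : ∀ (U A : Finset ℕ) (a : ℕ → 𝕜) (t : ℝ), 0 < t → A ⊆ U → (∀ j ∈ A, t ≤ ‖a j‖) →
    t ^ 2 * A.card ≤ K ^ 2 * ‖S e U a‖ ^ 2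

theorem exists_good {K c C : ℝ} (hK : 0 ≤ K) (hc : 0 < c) (h1 : ∀ j, c ≤ ‖e j‖ ∧ ‖e j‖ ≤ C)
    (h : Gr 𝕜 e K) : ∃ K', Good 𝕜 e K' := by
  have hC : 0 < C := lt_of_lt_of_le hc ((h1 0).1.trans (h1 0).2)
  have up : ∀ (D : Finset ℕ) (θ : ℕ → 𝕜), (∀ j, ‖θ j‖ = 1) → ‖S e D θ‖ ≤ 2 * K * C * √(D.card) := by
    intro D θ hθ
    obtain ⟨B, hB, h2⟩ := (signs 𝕜 (fun j => θ j • e j) D).1
    have h3 : ‖S e B θ - S e (D \ B) θ‖ ≤ C * √(D.card) := by
      refine le_of_pow_le_pow_left₀ two_ne_zero (by positivity) (h2.trans ?_)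
      rw [mul_pow, Real.sq_sqrt (Nat.cast_nonneg _), mul_comm, ← nsmul_eq_mul, ← sum_const]
      refine sum_le_sum fun j _ => ?_
      rw [norm_smul, hθ, one_mul]
      exact pow_le_pow_left₀ (norm_nonneg _) (h1 j).2 2
    calc _ ≤ _ := (h.flip hB hθ).1
      _ ≤ 2 * K * (C * √(D.card)) := by gcongr
      _ = _ := by ring
  have low : ∀ (D : Finset ℕ) (θ : ℕ → 𝕜), (∀ j, ‖θ j‖ = 1) →
      c ^ 2 * D.card ≤ (2 * K * ‖S e D θ‖) ^ 2 := by
    intro D θ hθ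
    obtain ⟨B, hB, h2⟩ := (signs 𝕜 (fun j => θ j • e j) D).2
    refine le_trans ?_ (h2.trans (pow_le_pow_left₀ (norm_nonneg _) (h.flip hB hθ).2 2))
    rw [mul_comm, ← nsmul_eq_mul, ← sum_const]
    refine sum_le_sum fun j _ => ?_
    rw [norm_smul, hθ, one_mul]
    exact pow_le_pow_left₀ hc.le (h1 j).1 2
  set K' := 1 + K + 2 * K * C + 4 * K ^ 2 / c with hK'
  have p1 : 0 ≤ 2 * K * C := by positivity
  have p2 : 0 ≤ 4 * K ^ 2 / c := by positivity
  refine ⟨K', by linarith, fun U G a h2 h3 => (h U G a h2 h3).trans ?_, fun D a t ht ha => ?_,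
    fun U A a t ht hA ha => ?_⟩
  · exact mul_le_mul_of_nonneg_right (by linarith) (norm_nonneg _)
  · obtain ⟨θ, hθ⟩ := exists_phase a
    have h2 := layer 𝕜 (fun j => θ j • e j) (L := 2 * K * C * √(D.card)) (by positivity) D
      (fun j => ‖a j‖) t ht (fun j hj => ⟨norm_nonneg _, ha j hj⟩) (fun s => by
        refine (up _ θ fun j => (hθ j).1).trans ?_
        gcongr
        exact filter_subset _ _)
    have e1 : S e D a = ∑ j ∈ D, (‖a j‖ : 𝕜) • θ j • e j :=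
      sum_congr rfl fun j _ => by rw [smul_smul, (hθ j).2]
    rw [e1]
    refine h2.trans ?_
    have : 2 * K * C ≤ K' := by linarith
    calc t * (2 * K * C * √(D.card)) = 2 * K * C * t * √(D.card) := by ring
      _ ≤ _ := by gcongr
  · obtain ⟨θ, hθ⟩ := exists_phase a
    set A' := U.filter (fun j => t ≤ ‖a j‖) with hA'
    have h2 := layer 𝕜 (fun j => a j • e j) (L := 2 * K * ‖S e U a‖) (by positivity) A'
      (fun j => t / ‖a j‖) 1 zero_le_one (fun j hj => ⟨by positivity, by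
        have := (mem_filter.1 hj).2
        exact div_le_one_of_le₀ this (norm_nonneg _)⟩) (fun s => by
        have b1 := h U A' a (filter_subset _ _) (fun n hn k hk hk' => by
          have := (mem_filter.1 hn).2
          have : ¬ t ≤ ‖a k‖ := fun h => hk' (mem_filter.2 ⟨hk, h⟩)
          linarith)
        have b2 := h U (A'.filter (fun j => ¬ s ≤ t / ‖a j‖)) a
          ((filter_subset _ _).trans (filter_subset _ _)) (fun n hn k hk hk' => by
          have c1 := mem_filter.1 hn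
          have c2 := (mem_filter.1 c1.1).2
          by_contra hlt
          push Not at hlt
          apply hk'
          refine mem_filter.2 ⟨mem_filter.2 ⟨hk, by linarith⟩, fun c3 => c1.2 (c3.trans ?_)⟩
          exact div_le_div_of_nonneg_left ht.le (by linarith) hlt.le)
        have b3 : ∑ j ∈ A'.filter (fun j => s ≤ t / ‖a j‖), a j • e j =
            S e A' a - S e (A'.filter (fun j => ¬ s ≤ t / ‖a j‖)) a := by
          unfold S
          rw [← sum_filter_add_sum_filter_not A' (fun j => s ≤ t / ‖a j‖)]; abel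
        rw [b3]
        linarith [norm_sub_le (S e A' a) (S e (A'.filter (fun j => ¬ s ≤ t / ‖a j‖)) a)])
    have e1 : ∑ j ∈ A', ((t / ‖a j‖ : ℝ) : 𝕜) • a j • e j = (t : 𝕜) • S e A' θ := by
      unfold S
      rw [smul_sum]
      refine sum_congr rfl fun j hj => ?_
      have c1 : (‖a j‖ : 𝕜) ≠ 0 := by
        have := (mem_filter.1 hj).2
        exact_mod_cast (by linarith : ‖a j‖ ≠ 0)
      rw [smul_smul, smul_smul]
      congr 1
      have c2 := (hθ j).2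
      push_cast
      rw [div_mul_eq_mul_div, div_eq_iff c1, mul_assoc, mul_comm (θ j), c2]
    rw [e1, norm_smul, RCLike.norm_ofReal, abs_of_pos ht, one_mul] at h2
    have h3 := low A' θ fun j => (hθ j).1
    have h4 : (A.card : ℝ) ≤ A'.card := by
      exact_mod_cast card_le_card fun j hj => mem_filter.2 ⟨hA hj, ha j hj⟩
    have h5 : c ^ 2 * (t ^ 2 * A.card) ≤ (4 * K ^ 2 * ‖S e U a‖) ^ 2 := by
      calc c ^ 2 * (t ^ 2 * A.card) ≤ t ^ 2 * (c ^ 2 * A'.card) := by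
            rw [mul_left_comm]; gcongr
        _ ≤ t ^ 2 * (2 * K * ‖S e A' θ‖) ^ 2 := by gcongr
        _ = (2 * K * (t * ‖S e A' θ‖)) ^ 2 := by ring
        _ ≤ (2 * K * (2 * K * ‖S e U a‖)) ^ 2 := by gcongr
        _ = _ := by ring
    have h6 : t ^ 2 * A.card ≤ (4 * K ^ 2 / c) ^ 2 * ‖S e U a‖ ^ 2 := by
      rw [div_pow, div_mul_eq_mul_div, le_div_iff₀ (by positivity)]
      nlinarith
    refine h6.trans ?_
    have : 4 * K ^ 2 / c ≤ K' := by linarith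
    gcongr

variable {K : ℝ}

theorem Good.up4 (h : Good 𝕜 e K) (a : ℕ → 𝕜) {σ : ℝ} (hσ : 0 ≤ σ) : ∀ (k : ℕ) (t : ℝ)
    (D : Finset ℕ), 0 < t → (∀ j ∈ D, t ≤ ‖a j‖ ∧ ‖a j‖ ≤ 2 ^ k * t) →
    ∑ j ∈ D, ‖a j‖ ^ 4 ≤ σ ^ 2 → ‖S e D a‖ ≤ 4 * K * σ / t := by
  have hK := h.one
  have base : ∀ (t : ℝ) (D : Finset ℕ), 0 < t → (∀ j ∈ D, t ≤ ‖a j‖ ∧ ‖a j‖ ≤ 2 * t) →
      ∑ j ∈ D, ‖a j‖ ^ 4 ≤ σ ^ 2 → ‖S e D a‖ ≤ 2 * K * σ / t := by
    intro t D ht ha hs
    have h1 := h.flat D a (2 * t) (by positivity) fun j hj => (ha j hj).2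
    have h2 : √(D.card) ≤ σ / t ^ 2 := by
      rw [Real.sqrt_le_iff]
      refine ⟨by positivity, ?_⟩
      rw [div_pow, le_div_iff₀ (by positivity), ← nsmul_eq_mul, ← sum_const]
      refine le_trans (sum_le_sum fun j hj => ?_) hs
      rw [← pow_mul]
      exact pow_le_pow_left₀ ht.le (ha j hj).1 _
    calc _ ≤ _ := h1
      _ ≤ K * (2 * t) * (σ / t ^ 2) := by gcongr
      _ = _ := by field_simp
  intro k
  induction k with
  | zero =>
    intro t D ht ha hs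
    refine (base t D ht (fun j hj => ⟨(ha j hj).1, by linarith [(ha j hj).2]⟩) hs).trans ?_
    gcongr; norm_num
  | succ k ih =>
    intro t D ht ha hs
    have sub : ∀ (p : ℕ → Prop) [DecidablePred p], ∑ j ∈ D.filter p, ‖a j‖ ^ 4 ≤ σ ^ 2 :=
      fun p _ => (sum_le_sum_of_subset_of_nonneg (filter_subset _ _)
        fun _ _ _ => by positivity).trans hs
    have h1 := base t (D.filter fun j => ‖a j‖ ≤ 2 * t) ht
      (fun j hj => ⟨(ha j (mem_filter.1 hj).1).1, (mem_filter.1 hj).2⟩) (sub _)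
    have h2 := ih (2 * t) (D.filter fun j => ¬ ‖a j‖ ≤ 2 * t) (by positivity)
      (fun j hj => ⟨(not_le.1 (mem_filter.1 hj).2).le, by
        have := (ha j (mem_filter.1 hj).1).2
        rw [pow_succ] at this; linarith⟩) (sub _)
    have e1 : S e D a = S e (D.filter fun j => ‖a j‖ ≤ 2 * t) a +
        S e (D.filter fun j => ¬ ‖a j‖ ≤ 2 * t) a := (sum_filter_add_sum_filter_not _ _ _).symm
    rw [e1]
    refine (norm_add_le _ _).trans ((add_le_add h1 h2).trans (le_of_eq ?_))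
    field_simp; ring

theorem Good.up4' (h : Good 𝕜 e K) (a : ℕ → 𝕜) (D : Finset ℕ) (ha : ∀ j ∈ D, 1 ≤ ‖a j‖) :
    ‖S e D a‖ ^ 2 ≤ 16 * K ^ 2 * ∑ j ∈ D, ‖a j‖ ^ 4 := by
  obtain ⟨k, hk⟩ := pow_unbounded_of_one_lt (∑ j ∈ D, ‖a j‖) (one_lt_two (α := ℝ))
  have hs : 0 ≤ ∑ j ∈ D, ‖a j‖ ^ 4 := by positivity
  have h1 := h.up4 a (Real.sqrt_nonneg (∑ j ∈ D, ‖a j‖ ^ 4)) k 1 D one_pos
    (fun j hj => ⟨ha j hj, by
      have := single_le_sum (f := fun j => ‖a j‖) (fun _ _ => norm_nonneg _) hj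
      linarith⟩) (Real.sq_sqrt hs).ge
  have h2 := pow_le_pow_left₀ (norm_nonneg _) h1 2
  rw [div_one, mul_pow, Real.sq_sqrt hs] at h2
  linarith

theorem Good.low4 (h : Good 𝕜 e K) (a : ℕ → 𝕜) (U : Finset ℕ) : ∀ (k : ℕ) (t : ℝ)
    (D : Finset ℕ), 0 < t → D ⊆ U → (∀ j ∈ D, t ≤ 2 ^ k * ‖a j‖) →
    ∑ j ∈ D, min (‖a j‖ ^ 2) (t ^ 2) ^ 2 ≤ 6 * t ^ 2 * (K ^ 2 * ‖S e U a‖ ^ 2) := by
  have base : ∀ (t : ℝ) (D : Finset ℕ), 0 < t → D ⊆ U → (∀ j ∈ D, t / 2 ≤ ‖a j‖) →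
      ∑ j ∈ D, min (‖a j‖ ^ 2) (t ^ 2) ^ 2 ≤ 4 * t ^ 2 * (K ^ 2 * ‖S e U a‖ ^ 2) := by
    intro t D ht hD ha
    have h1 := h.weak U D a (t / 2) (by positivity) hD ha
    calc _ ≤ ∑ _j ∈ D, (t ^ 2) ^ 2 := sum_le_sum fun j _ =>
          pow_le_pow_left₀ (by positivity) (min_le_right _ _) 2
      _ = 4 * t ^ 2 * ((t / 2) ^ 2 * D.card) := by rw [sum_const, nsmul_eq_mul]; ring
      _ ≤ _ := by gcongr
  intro k
  induction k with
  | zero =>
    intro t D ht hD ha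
    refine (base t D ht hD fun j hj => by linarith [ha j hj]).trans ?_
    gcongr; norm_num
  | succ k ih =>
    intro t D ht hD ha
    have h1 := base t (D.filter fun j => t / 2 ≤ ‖a j‖) ht ((filter_subset _ _).trans hD)
      fun j hj => (mem_filter.1 hj).2
    have h2 := ih (t / 2) (D.filter fun j => ¬ t / 2 ≤ ‖a j‖) (by positivity)
      ((filter_subset _ _).trans hD) fun j hj => by
        have := ha j (mem_filter.1 hj).1
        rw [pow_succ] at this; linarith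
    have h3 : ∑ j ∈ D.filter (fun j => ¬ t / 2 ≤ ‖a j‖), min (‖a j‖ ^ 2) (t ^ 2) ^ 2 =
        ∑ j ∈ D.filter (fun j => ¬ t / 2 ≤ ‖a j‖), min (‖a j‖ ^ 2) ((t / 2) ^ 2) ^ 2 := by
      refine sum_congr rfl fun j hj => ?_
      have c1 := (not_le.1 (mem_filter.1 hj).2).le
      rw [min_eq_left (pow_le_pow_left₀ (norm_nonneg _) c1 2),
        min_eq_left (pow_le_pow_left₀ (norm_nonneg _) (by linarith) 2)]
    rw [← sum_filter_add_sum_filter_not D (fun j => t / 2 ≤ ‖a j‖), h3]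
    have : 0 ≤ t ^ 2 * (K ^ 2 * ‖S e U a‖ ^ 2) := by positivity
    nlinarith

theorem Good.low4' (h : Good 𝕜 e K) (a : ℕ → 𝕜) {U D : Finset ℕ} (hD : D ⊆ U) :
    ∑ j ∈ D, min (‖a j‖ ^ 2) 1 ^ 2 ≤ 6 * K ^ 2 * ‖S e U a‖ ^ 2 := by
  obtain ⟨k, hk⟩ := pow_unbounded_of_one_lt (∑ j ∈ D, ‖a j‖⁻¹) (one_lt_two (α := ℝ))
  have h1 := h.low4 a U k 1 (D.filter fun j => a j ≠ 0) one_pos ((filter_subset _ _).trans hD)
    fun j hj => by
      have c1 := single_le_sum (f := fun j => ‖a j‖⁻¹) (fun _ _ => by positivity)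
        (mem_filter.1 hj).1
      have c2 : 0 < ‖a j‖ := norm_pos_iff.2 (mem_filter.1 hj).2
      rw [← div_le_iff₀ c2, one_div]
      linarith
  rw [sum_filter_of_ne (p := fun j => a j ≠ 0) (fun j _ h0 h1 => h0 (by simp [h1]))] at h1
  simpa [mul_assoc] using h1

end Pool.Agent.Lib.MP_a2b538_an.HS
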