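import Mathlib

namespace Pool.Agent.Lib.MP_a2b538_an.HS

open Finset

theorem exists_enum {β : Type} [LinearOrder β] (T : Set ℕ) (key : ℕ → β)
    (hfin : ∀ j ∈ T, {i | i ∈ T ∧ key i ≤ key j}.Finite) :
    ∃ (D : Set ℕ) (ρ : ℕ → ℕ), IsLowerSet D ∧ Set.InjOn ρ D ∧ ρ '' D = T ∧
      ∀ j ∈ D, ∀ k ∈ D, j < k → key (ρ j) ≤ key (ρ k) := by
  let κ : ℕ → β ×ₗ ℕ := fun i => toLex (key i, i)
  have κi : Function.Injective κ := fun i j h => congrArg (fun p => (ofLex p).2) h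
  have κm : ∀ i j, κ i < κ j → key i ≤ key j := fun i j h => by
    rcases Prod.Lex.toLex_lt_toLex.1 h with h | h
    · exact h.le
    · exact h.1.le
  have hf : ∀ j ∈ T, {i | i ∈ T ∧ κ i < κ j}.Finite := fun j hj =>
    (hfin j hj).subset fun i hi => ⟨hi.1, κm _ _ hi.2⟩
  let r : ℕ → ℕ := fun j => {i | i ∈ T ∧ κ i < κ j}.ncard
  have rm : ∀ i ∈ T, ∀ j ∈ T, κ i < κ j → r i < r j := fun i hi j hj h =>
    Set.ncard_lt_ncard ⟨fun k hk => ⟨hk.1, hk.2.trans h⟩, fun hs => lt_irrefl _ (hs ⟨hi, h⟩).2⟩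
      (hf j hj)
  have ri : Set.InjOn r T := fun i hi j hj h => by
    rcases lt_trichotomy (κ i) (κ j) with c | c | c
    · exact absurd h (rm i hi j hj c).ne
    · exact κi c
    · exact absurd h (rm j hj i hi c).ne'
  have hinv : ∀ m ∈ r '' T, Function.invFunOn r T m ∈ T ∧ r (Function.invFunOn r T m) = m :=
    fun m hm => ⟨Function.invFunOn_mem hm, Function.invFunOn_eq hm⟩
  refine ⟨r '' T, Function.invFunOn r T, ?_, Function.invFunOn_injOn_image r T,
    ri.invFunOn_image le_rfl, fun j hj k hk hjk => ?_⟩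
  · rintro _ m hm ⟨j, hj, rfl⟩
    rcases hm.eq_or_lt with rfl | hlt
    · exact ⟨j, hj, rfl⟩
    have h1 : r '' {i | i ∈ T ∧ κ i < κ j} = Set.Iio (r j) := by
      refine Set.eq_of_subset_of_ncard_le ?_ ?_ (Set.finite_Iio _)
      · rintro _ ⟨i, hi, rfl⟩
        exact rm i hi.1 j hj hi.2
      · rw [(ri.mono fun i hi => hi.1).ncard_image, Set.ncard_eq_toFinset_card']
        simp [r]
    obtain ⟨i, hi, e⟩ := h1.ge hlt
    exact ⟨i, hi.1, e⟩
  · by_contra hn
    have h1 : κ (Function.invFunOn r T k) < κ (Function.invFunOn r T j) :=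
      Prod.Lex.toLex_lt_toLex.2 (Or.inl (not_le.1 hn))
    have := rm _ (hinv k hk).1 _ (hinv j hj).1 h1
    rw [(hinv k hk).2, (hinv j hj).2] at this
    omega

theorem exists_perm {β : Type} [LinearOrder β] (key : ℕ → β)
    (hfin : ∀ j, {i | key i ≤ key j}.Finite) : ∃ π : ℕ ≃ ℕ, Monotone fun n => key (π n) := by
  obtain ⟨D, ρ, h1, h2, h3, h4⟩ := exists_enum Set.univ key fun j _ => by simpa using hfin j
  have hD : D = Set.univ := by
    have : D.Infinite := Set.Infinite.of_image ρ (h3 ▸ Set.infinite_univ)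
    refine Set.eq_univ_of_forall fun n => ?_
    obtain ⟨m, hm, hlt⟩ := this.exists_gt n
    exact h1 hlt.le hm
  subst hD
  refine ⟨Equiv.ofBijective ρ ⟨Set.injOn_univ.1 h2, ?_⟩, monotone_nat_of_le_succ fun n =>
    h4 n trivial (n + 1) trivial (Nat.lt_succ_self n)⟩
  rwa [Set.image_univ, Set.range_eq_univ] at h3

end Pool.Agent.Lib.MP_a2b538_an.HS
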