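import Mathlib
import Pool.Agent.Lib.MP_a2b538_an.HS.Det

namespace Pool.Agent.Lib.MP_a2b538_an.HS

open Finset

variable {𝕜 : Type} [RCLike 𝕜] {X : Type} [NormedAddCommGroup X] [InnerProductSpace 𝕜 X]

/-- average over all choices of signs -/
noncomputable def Ex : List (ℕ → 𝕜) → ((ℕ → 𝕜) → ℝ) → ℝ
  | [], f => f 0
  | v :: l, f => (Ex l (fun w => f (w + v)) + Ex l (fun w => f (w - v))) / 2

theorem Ex_mono (l : List (ℕ → 𝕜)) : ∀ {f g : (ℕ → 𝕜) → ℝ}, (∀ w, f w ≤ g w) → Ex l f ≤ Ex l g := by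
  induction l with
  | nil => intro f g h; exact h 0
  | cons v l ih =>
    intro f g h
    have h1 := ih (f := fun w => f (w + v)) (g := fun w => g (w + v)) fun w => h _
    have h2 := ih (f := fun w => f (w - v)) (g := fun w => g (w - v)) fun w => h _
    simp only [Ex]
    linarith

theorem Ex_add (l : List (ℕ → 𝕜)) : ∀ (f g : (ℕ → 𝕜) → ℝ),
    Ex l (fun w => f w + g w) = Ex l f + Ex l g := by
  induction l with
  | nil => intro f g; rfl
  | cons v l ih => intro f g; simp only [Ex, ih]; ring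

theorem Ex_mul (l : List (ℕ → 𝕜)) (c : ℝ) : ∀ (f : (ℕ → 𝕜) → ℝ),
    Ex l (fun w => c * f w) = c * Ex l f := by
  induction l with
  | nil => intro f; rfl
  | cons v l ih => intro f; simp only [Ex, ih]; ring

theorem Ex_const (l : List (ℕ → 𝕜)) (c : ℝ) : Ex l (fun _ => c) = c := by
  induction l with
  | nil => rfl
  | cons v l ih => simp only [Ex, ih]; ring

theorem Ex_sum (l : List (ℕ → 𝕜)) (D : Finset ℕ) (f : ℕ → (ℕ → 𝕜) → ℝ) :
    Ex l (fun w => ∑ j ∈ D, f j w) = ∑ j ∈ D, Ex l (f j) := by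
  induction D using Finset.induction_on with
  | empty => simp [Ex_const]
  | insert i D hi ih => simp only [sum_insert hi, Ex_add, ih]

theorem Ex_sq (φ : (ℕ → 𝕜) → X) (h0 : φ 0 = 0) (h1 : ∀ w v, φ (w + v) = φ w + φ v)
    (h2 : ∀ w v, φ (w - v) = φ w - φ v) (l : List (ℕ → 𝕜)) : ∀ z : X,
    Ex l (fun w => ‖φ w + z‖ ^ 2) = ‖z‖ ^ 2 + (l.map fun v => ‖φ v‖ ^ 2).sum := by
  induction l with
  | nil => intro z; simp [Ex, h0]
  | cons v l ih =>
    intro z
    have e1 : ∀ w, φ (w + v) + z = φ w + (z + φ v) := fun w => by rw [h1]; abel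
    have e2 : ∀ w, φ (w - v) + z = φ w + (z - φ v) := fun w => by rw [h2]; abel
    simp only [Ex, e1, e2, ih, List.map_cons, List.sum_cons]
    have := parallelogram_law_with_norm 𝕜 z (φ v)
    linarith

/-- energy of a list on the set `A` -/
noncomputable def En (e : ℕ → X) (A : Finset ℕ) (l : List (ℕ → 𝕜)) : ℝ :=
  (l.map fun v => ‖S e A v‖ ^ 2).sum

/-- profile of a list -/
noncomputable def prof (l : List (ℕ → 𝕜)) (j : ℕ) : ℝ := (l.map fun v => ‖v j‖ ^ 2).sum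

theorem prof_nonneg (l : List (ℕ → 𝕜)) (j : ℕ) : 0 ≤ prof l j :=
  List.sum_nonneg fun x hx => by
    obtain ⟨v, -, rfl⟩ := List.mem_map.1 hx
    positivity

variable {e : ℕ → X} {K : ℝ}

theorem En_nonneg (A : Finset ℕ) (l : List (ℕ → 𝕜)) : 0 ≤ En e A l :=
  List.sum_nonneg fun x hx => by
    obtain ⟨v, -, rfl⟩ := List.mem_map.1 hx
    positivity

theorem Ex_En (A : Finset ℕ) (l : List (ℕ → 𝕜)) : Ex l (fun w => ‖S e A w‖ ^ 2) = En e A l := by
  have := Ex_sq (S e A) (by simp [S]) (S_add A) (S_sub A) l 0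
  simpa [En] using this

theorem Ex_two (l : List (ℕ → 𝕜)) (j : ℕ) : Ex l (fun w => ‖w j‖ ^ 2) = prof l j := by
  have := Ex_sq (X := 𝕜) (fun w => w j) rfl (fun _ _ => rfl) (fun _ _ => rfl) l 0
  simpa [prof] using this

theorem Ex_four' (l : List (ℕ → 𝕜)) (j : ℕ) : ∀ z : 𝕜, Ex l (fun w => ‖w j + z‖ ^ 4) ≤
    ‖z‖ ^ 4 + 6 * ‖z‖ ^ 2 * prof l j + 3 * prof l j ^ 2 := by
  induction l with
  | nil => intro z; simp [Ex, prof]
  | cons v l ih =>
    intro z
    have e1 : ∀ w : ℕ → 𝕜, (w + v) j + z = w j + (z + v j) := fun w => by simp; abel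
    have e2 : ∀ w : ℕ → 𝕜, (w - v) j + z = w j + (z - v j) := fun w => by simp; abel
    have e3 : prof (v :: l) j = ‖v j‖ ^ 2 + prof l j := by simp [prof]
    simp only [Ex, e1, e2, e3]
    have h1 := ih (z + v j)
    have h2 := ih (z - v j)
    have h3 := parallelogram_law_with_norm 𝕜 z (v j)
    have h4 := pow_le_pow_left₀ (norm_nonneg _) (norm_add_le z (v j)) 2
    have h5 := pow_le_pow_left₀ (norm_nonneg _) (norm_sub_le z (v j)) 2
    have h6 := prof_nonneg l j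
    set p := prof l j
    have e4 : ‖z + v j‖ ^ 4 = (‖z + v j‖ ^ 2) ^ 2 := by ring
    have e5 : ‖z - v j‖ ^ 4 = (‖z - v j‖ ^ 2) ^ 2 := by ring
    rw [e4] at h1
    rw [e5] at h2
    set A := ‖z + v j‖ ^ 2
    set B := ‖z - v j‖ ^ 2
    set x := ‖z‖
    set y := ‖v j‖
    have h7 : (A - (x ^ 2 + y ^ 2)) ^ 2 ≤ (2 * x * y) ^ 2 := by
      apply sq_le_sq'
      · nlinarith
      · nlinarith
    have h8 : B = 2 * (x ^ 2 + y ^ 2) - A := by linarith
    rw [h8] at h2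
    nlinarith [sq_nonneg (y ^ 2)]

theorem Ex_four (l : List (ℕ → 𝕜)) (j : ℕ) : Ex l (fun w => ‖w j‖ ^ 4) ≤ 3 * prof l j ^ 2 := by
  simpa using Ex_four' l j 0

theorem Ex_min (l : List (ℕ → 𝕜)) (j : ℕ) :
    min (prof l j) 1 ^ 2 / 16 ≤ Ex l (fun w => min (‖w j‖ ^ 2) 1 ^ 2) := by
  have h0 := prof_nonneg l j
  rcases h0.eq_or_lt with h | hp
  · rw [← h]
    refine le_trans (by simp) ((Ex_const l 0).ge.trans (Ex_mono l fun w => by positivity))
  set p := prof l j with hpe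
  set q := min p 1 with hq
  have hq0 : 0 < q := lt_min hp one_pos
  have key : ∀ u : ℝ, 0 ≤ u →
      q ^ 2 / (2 * p) * u + (-(q ^ 2 / (8 * p ^ 2))) * u ^ 2 + -(q ^ 2 / 16) ≤ min u 1 ^ 2 := by
    intro u hu
    have a1 : u - u ^ 2 / (4 * p) ≤ min u p := by
      refine le_min (by have : 0 ≤ u ^ 2 / (4 * p) := by positivity
                        linarith) ?_
      have : 0 ≤ (u - 2 * p) ^ 2 / (4 * p) := by positivity
      have e : (u - 2 * p) ^ 2 / (4 * p) = u ^ 2 / (4 * p) - u + p := by field_simp; ring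
      linarith
    have a2 : q / p * min u p ≤ min u 1 := by
      have b1 : q / p ≤ 1 := div_le_one_of_le₀ (min_le_left _ _) hp.le
      have b2 : 0 ≤ min u p := le_min hu hp.le
      refine le_min ((mul_le_of_le_one_left b2 b1).trans (min_le_left _ _)) ?_
      calc q / p * min u p ≤ q / p * p := by gcongr; exact min_le_right _ _
        _ = q := by field_simp
        _ ≤ 1 := min_le_right _ _
    have a3 : q / p * (u - u ^ 2 / (4 * p)) ≤ min u 1 :=
      (mul_le_mul_of_nonneg_left a1 (by positivity)).trans a2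
    have a4 := mul_le_mul_of_nonneg_left a3 (show 0 ≤ q / 2 by positivity)
    have e : q / 2 * (q / p * (u - u ^ 2 / (4 * p)))
        = q ^ 2 / (2 * p) * u + (-(q ^ 2 / (8 * p ^ 2))) * u ^ 2 := by field_simp; ring
    nlinarith [sq_nonneg (min u 1 - q / 4)]
  have h1 := Ex_mono l (f := fun w => q ^ 2 / (2 * p) * ‖w j‖ ^ 2 +
    (-(q ^ 2 / (8 * p ^ 2))) * ‖w j‖ ^ 4 + -(q ^ 2 / 16)) (g := fun w => min (‖w j‖ ^ 2) 1 ^ 2)
    fun w => by have := key (‖w j‖ ^ 2) (by positivity); rwa [← pow_mul] at this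
  rw [Ex_add, Ex_add, Ex_mul, Ex_mul, Ex_const, Ex_two] at h1
  refine le_trans ?_ h1
  have h2 := mul_le_mul_of_nonneg_left (Ex_four l j) (show 0 ≤ q ^ 2 / (8 * p ^ 2) by positivity)
  have e1 : q ^ 2 / (8 * p ^ 2) * (3 * p ^ 2) = 3 * q ^ 2 / 8 := by field_simp
  have e2 : q ^ 2 / (2 * p) * p = q ^ 2 / 2 := by field_simp
  rw [← hpe, e1] at h2
  rw [← hpe, e2]
  linarith

theorem Good.sum_min (h : Good 𝕜 e K) (l : List (ℕ → 𝕜)) {U D : Finset ℕ} (hD : D ⊆ U) :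
    ∑ j ∈ D, min (prof l j) 1 ^ 2 ≤ 96 * K ^ 2 * En e U l := by
  have h1 := Ex_mono l fun w => h.low4' w hD
  rw [Ex_sum, Ex_mul, Ex_En] at h1
  have h2 := sum_le_sum fun j (_ : j ∈ D) => Ex_min l j
  rw [← sum_div] at h2
  linarith

theorem Good.lemC (h : Good 𝕜 e K) (l : List (ℕ → 𝕜)) {U W : Finset ℕ} (hW : W ⊆ U)
    (h1 : ∀ j ∈ W, 1 ≤ prof l j) : (W.card : ℝ) ≤ 96 * K ^ 2 * En e U l := by
  refine le_trans (le_of_eq ?_) (h.sum_min l hW)
  rw [sum_congr rfl fun j hj => by rw [min_eq_right (h1 j hj)]]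
  simp

theorem Good.lemA (h : Good 𝕜 e K) (l : List (ℕ → 𝕜)) (D : Finset ℕ)
    (h1 : ∀ j ∈ D, prof l j ≤ 1) : En e D l ≤ 98 * K ^ 2 * D.card := by
  have hK := h.one
  have key : ∀ w : ℕ → 𝕜, ‖S e D w‖ ^ 2 ≤ 2 * K ^ 2 * D.card + 32 * K ^ 2 * ∑ j ∈ D, ‖w j‖ ^ 4 := by
    intro w
    have a1 := h.flat (D.filter fun j => ¬ 1 ≤ ‖w j‖) w 1 zero_le_one
      fun j hj => (not_le.1 (mem_filter.1 hj).2).le
    have a2 := h.up4' w (D.filter fun j => 1 ≤ ‖w j‖) fun j hj => (mem_filter.1 hj).2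
    have a3 : ∑ j ∈ D.filter (fun j => 1 ≤ ‖w j‖), ‖w j‖ ^ 4 ≤ ∑ j ∈ D, ‖w j‖ ^ 4 :=
      sum_le_sum_of_subset_of_nonneg (filter_subset _ _) fun _ _ _ => by positivity
    have a4 := pow_le_pow_left₀ (norm_nonneg _) a1 2
    rw [mul_pow, Real.sq_sqrt (Nat.cast_nonneg _), mul_one] at a4
    have a5 : ((D.filter fun j => ¬ 1 ≤ ‖w j‖).card : ℝ) ≤ D.card := by
      exact_mod_cast card_le_card (filter_subset _ _)
    have e1 : S e D w = S e (D.filter fun j => 1 ≤ ‖w j‖) w +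
        S e (D.filter fun j => ¬ 1 ≤ ‖w j‖) w := (sum_filter_add_sum_filter_not _ _ _).symm
    have a6 := pow_le_pow_left₀ (norm_nonneg _) (e1 ▸ norm_add_le _ _ : ‖S e D w‖ ≤ _) 2
    have a7 := mul_le_mul_of_nonneg_left a3 (show 0 ≤ K ^ 2 by positivity)
    have a8 := mul_le_mul_of_nonneg_left a5 (show 0 ≤ K ^ 2 by positivity)
    nlinarith [sq_nonneg (‖S e (D.filter fun j => 1 ≤ ‖w j‖) w‖ -
      ‖S e (D.filter fun j => ¬ 1 ≤ ‖w j‖) w‖)]
  have h2 := Ex_mono l key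
  rw [Ex_En, Ex_add, Ex_const, Ex_mul, Ex_sum] at h2
  have h3 : ∑ j ∈ D, Ex l (fun w => ‖w j‖ ^ 4) ≤ 3 * D.card := by
    calc _ ≤ ∑ _j ∈ D, (3 : ℝ) := sum_le_sum fun j hj => (Ex_four l j).trans (by
          have := pow_le_one₀ (n := 2) (prof_nonneg l j) (h1 j hj)
          linarith)
      _ = _ := by rw [sum_const, nsmul_eq_mul, mul_comm]
  have h4 := mul_le_mul_of_nonneg_left h3 (show 0 ≤ K ^ 2 by positivity)
  linarith

theorem Good.lemB (h : Good 𝕜 e K) (l : List (ℕ → 𝕜)) {J D : Finset ℕ} (hD : D ⊆ J)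
    (h1 : ∀ j ∈ J \ D, prof l j ≤ 1) :
    En e (J \ D) l ≤ 14000 * K ^ 4 * (En e J l + D.card) := by
  have hK := h.one
  have key : ∀ w : ℕ → 𝕜, ‖S e (J \ D) w‖ ^ 2 ≤ 12 * K ^ 2 * ‖S e J w‖ ^ 2 +
      48 * K ^ 4 * D.card + 48 * K ^ 2 * ∑ j ∈ J \ D, ‖w j‖ ^ 4 := by
    intro w
    set G := (J \ D).filter fun j => 1 ≤ ‖w j‖ with hG
    have hGs : G ⊆ J \ D := filter_subset _ _
    let w' : ℕ → 𝕜 := fun j => if j ∈ D ∧ ‖w j‖ < 1 then 1 else w j
    have hsub : D ∪ G ⊆ J := union_subset hD (hGs.trans sdiff_subset)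
    have a1 := h.gr J (D ∪ G) w' hsub (fun n hn k hk hk' => by
      rw [mem_union, not_or] at hk'
      have b1 : ‖w' k‖ ≤ 1 := by
        simp only [w']
        rw [if_neg fun h => hk'.1 h.1]
        by_contra hc
        exact hk'.2 (mem_filter.2 ⟨mem_sdiff.2 ⟨hk, hk'.1⟩, (not_le.1 hc).le⟩)
      refine b1.trans ?_
      simp only [w']
      split_ifs with hc
      · simp
      · rcases mem_union.1 hn with hn | hn
        · exact not_lt.1 fun h => hc ⟨hn, h⟩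
        · exact (mem_filter.1 hn).2)
    have a2 : ‖S e J w'‖ ≤ ‖S e J w‖ + K * 2 * √(D.card) := by
      have e1 : S e J w' = S e J w + S e D (w' - w) := by
        rw [← S_subset hD (a := w' - w) fun j _ hj => by simp [w', hj], S_sub]; abel
      rw [e1]
      refine (norm_add_le _ _).trans (add_le_add le_rfl (h.flat D _ 2 (by norm_num) fun j hj => ?_))
      simp only [w', Pi.sub_apply]
      split_ifs with hc
      · refine (norm_sub_le _ _).trans ?_
        rw [norm_one]; linarith [hc.2]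
      · simp
    have e2 : S e (J \ D) w = S e J w' - S e (D ∪ G) w' + S e G w := by
      rw [← S_sdiff hsub, S_congr (a := w') (b := w) fun j hj => by
        have : j ∉ D := fun h => (mem_sdiff.1 hj).2 (mem_union_left _ h)
        simp [w', this], show J \ (D ∪ G) = (J \ D) \ G by ext; simp; tauto, S_sdiff hGs]
      abel
    have a3 := h.up4' w G fun j hj => (mem_filter.1 hj).2
    have a4 : ∑ j ∈ G, ‖w j‖ ^ 4 ≤ ∑ j ∈ J \ D, ‖w j‖ ^ 4 :=
      sum_le_sum_of_subset_of_nonneg hGs fun _ _ _ => by positivity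
    have a5 : ‖S e (J \ D) w‖ ≤ 2 * K * ‖S e J w‖ + 4 * K ^ 2 * √(D.card) + ‖S e G w‖ := by
      rw [e2]
      refine (norm_add_le _ _).trans (add_le_add ((norm_sub_le _ _).trans ?_) le_rfl)
      have b1 := mul_le_mul_of_nonneg_left a2 (show 0 ≤ 2 * K by positivity)
      have b2 := mul_le_mul_of_nonneg_right hK (norm_nonneg (S e J w'))
      nlinarith
    have a6 := pow_le_pow_left₀ (norm_nonneg _) a5 2
    have a7 := mul_le_mul_of_nonneg_left a4 (show 0 ≤ K ^ 2 by positivity)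
    have a8 : (4 * K ^ 2 * √(D.card)) ^ 2 = 16 * K ^ 4 * D.card := by
      rw [mul_pow, Real.sq_sqrt (Nat.cast_nonneg _)]; ring
    set x := 2 * K * ‖S e J w‖ with hx
    set y := 4 * K ^ 2 * √(D.card)
    set z := ‖S e G w‖
    have a9 : x ^ 2 = 4 * K ^ 2 * ‖S e J w‖ ^ 2 := by rw [hx]; ring
    nlinarith [sq_nonneg (x - y), sq_nonneg (x - z), sq_nonneg (y - z)]
  have h2 := Ex_mono l key
  rw [Ex_En, Ex_add, Ex_add, Ex_const, Ex_mul, Ex_mul, Ex_En, Ex_sum] at h2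
  have h3 : ∑ j ∈ J \ D, Ex l (fun w => ‖w j‖ ^ 4) ≤ 3 * (96 * K ^ 2 * En e J l) := by
    refine le_trans ?_ (mul_le_mul_of_nonneg_left (h.sum_min l (sdiff_subset (t := D)))
      (by norm_num))
    rw [mul_sum]
    exact sum_le_sum fun j hj => by rw [min_eq_left (h1 j hj)]; exact Ex_four l j
  have h4 := mul_le_mul_of_nonneg_left h3 (show 0 ≤ K ^ 2 by positivity)
  have h5 := En_nonneg (e := e) J l
  have h6 : K ^ 2 ≤ K ^ 4 := pow_le_pow_right₀ hK (by norm_num)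
  have h7 := mul_le_mul_of_nonneg_right h6 h5
  have h8 : 0 ≤ K ^ 4 * En e J l := by positivity
  have h9 : 0 ≤ K ^ 4 * (D.card : ℝ) := by positivity
  nlinarith

end Pool.Agent.Lib.MP_a2b538_an.HS
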