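import Mathlib
import Pool.Agent.Lib.MP_a2b538_an.HS.Ex

namespace Pool.Agent.Lib.MP_a2b538_an.HS

open Finset

variable {𝕜 : Type} [RCLike 𝕜] {X : Type} [NormedAddCommGroup X] [InnerProductSpace 𝕜 X]

/-- a finitely supported vector and a piece of it that is `M` times longer -/
def Bad (e : ℕ → X) (M : ℝ) (c : 𝕜) (D : Finset ℕ) (p : (ℕ → 𝕜) × (ℕ → 𝕜)) : Prop :=
  ∃ J0 : Finset ℕ, (∀ j, j ∉ J0 → p.1 j = 0) ∧ (∀ j, ‖p.2 j‖ ≤ ‖p.1 j‖) ∧
    (∀ j, j ∉ D → p.2 j = c * p.1 j) ∧ M * ‖S e J0 p.1‖ ≤ ‖S e J0 p.2‖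

/-- a list of bad pairs whose pieces have profile at most one, and one on `W` -/
def Inv (e : ℕ → X) (M : ℝ) (c : 𝕜) (D W : Finset ℕ) : Prop :=
  ∃ L : List ((ℕ → 𝕜) × (ℕ → 𝕜)), (∀ p ∈ L, Bad e M c D p) ∧
    (∀ j, prof (L.map Prod.snd) j ≤ 1) ∧ ∀ j ∈ W, 1 ≤ prof (L.map Prod.snd) j

variable {e : ℕ → X} {K M : ℝ} {c : 𝕜} {D D' W : Finset ℕ}

theorem Inv.mono (h : Inv e M c D W) (hD : D ⊆ D') : Inv e M c D' W := by
  obtain ⟨L, h1, h2, h3⟩ := h
  refine ⟨L, fun p hp => ?_, h2, h3⟩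
  obtain ⟨J, a1, a2, a3, a4⟩ := h1 p hp
  exact ⟨J, a1, a2, fun j hj => a3 j fun h => hj (hD h), a4⟩

theorem Inv.empty : Inv e M c D ∅ := ⟨[], by simp, fun j => by simp [prof], by simp⟩

theorem Bad.common (L : List ((ℕ → 𝕜) × (ℕ → 𝕜))) (h : ∀ p ∈ L, Bad e M c D p) (A : Finset ℕ) :
    ∃ J, A ⊆ J ∧ ∀ p ∈ L, M * ‖S e J p.1‖ ≤ ‖S e J p.2‖ := by
  suffices H : ∃ J0 : Finset ℕ, ∀ J, J0 ⊆ J → ∀ p ∈ L, M * ‖S e J p.1‖ ≤ ‖S e J p.2‖ by
    obtain ⟨J0, H⟩ := H
    exact ⟨A ∪ J0, subset_union_left, H _ subset_union_right⟩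
  induction L with
  | nil => exact ⟨∅, by simp⟩
  | cons q L ih =>
    obtain ⟨J1, H⟩ := ih fun p hp => h p (List.mem_cons_of_mem _ hp)
    obtain ⟨J0, a1, a2, -, a4⟩ := h q List.mem_cons_self
    refine ⟨J0 ∪ J1, fun J hJ p hp => ?_⟩
    rcases List.mem_cons.1 hp with rfl | hp
    · have hs : J0 ⊆ J := subset_union_left.trans hJ
      rw [S_subset hs fun j _ hj => a1 j hj, S_subset hs fun j _ hj => by
        have := a2 j
        rw [a1 j hj, norm_zero] at this
        exact norm_le_zero_iff.1 this]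
      exact a4
    · exact H J (subset_union_right.trans hJ) p hp

theorem list_le {T : Type} (L : List T) {f g : T → ℝ} (h : ∀ p ∈ L, f p ≤ g p) :
    (L.map f).sum ≤ (L.map g).sum := List.sum_le_sum h

theorem Good.size (h : Good 𝕜 e K) (hM : 17000000 * K ^ 6 ≤ M ^ 2) (hM0 : 0 ≤ M) (hc : ‖c‖ ≤ 1)
    (hI : Inv e M c D W) : 6 * W.card ≤ D.card := by
  obtain ⟨L, h1, h2, h3⟩ := hI
  have hK := h.one
  obtain ⟨J, hJ, h4⟩ := Bad.common L h1 (D ∪ W)
  have hD : D ⊆ J := subset_union_left.trans hJ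
  have hW : W ⊆ J := subset_union_right.trans hJ
  have a1 := h.lemA (L.map Prod.snd) D fun j _ => h2 j
  have a2 := h.lemB (L.map fun p => c • p.1) hD (fun j hj => le_trans (le_of_eq (by
    simp only [prof, List.map_map]
    congr 1
    refine List.map_congr_left fun p hp => ?_
    obtain ⟨-, -, -, b, -⟩ := h1 p hp
    simp [b j (mem_sdiff.1 hj).2])) (h2 j))
  have a3 := h.lemC (L.map Prod.fst) hW fun j hj => (h3 j hj).trans (by
    simp only [prof, List.map_map]
    refine list_le L fun p hp => ?_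
    obtain ⟨-, -, b, -, -⟩ := h1 p hp
    exact pow_le_pow_left₀ (norm_nonneg _) (b j) 2)
  have a4 : En e J (L.map fun p => c • p.1) ≤ En e J (L.map Prod.fst) := by
    simp only [En, List.map_map]
    refine list_le L fun p _ => pow_le_pow_left₀ (norm_nonneg _) ?_ 2
    simp only [S_smul, norm_smul]
    exact mul_le_of_le_one_left (norm_nonneg _) hc
  have a5 : M ^ 2 * En e J (L.map Prod.fst) ≤
      2 * En e D (L.map Prod.snd) + 2 * En e (J \ D) (L.map fun p => c • p.1) := by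
    simp only [En, List.map_map]
    rw [← List.sum_map_mul_left, ← List.sum_map_mul_left, ← List.sum_map_mul_left,
      ← List.sum_map_add]
    refine list_le L fun p hp => ?_
    obtain ⟨-, -, -, b, -⟩ := h1 p hp
    have b1 := pow_le_pow_left₀ (by positivity) (h4 p hp) 2
    have b2 : S e J p.2 = S e D p.2 + S e (J \ D) (c • p.1) := by
      rw [← S_congr (A := J \ D) (a := p.2) (b := c • p.1) fun j hj => by
        simp [b j (mem_sdiff.1 hj).2], S_sdiff hD]; abel
    have b3 := pow_le_pow_left₀ (norm_nonneg _) (b2 ▸ norm_add_le _ _ : ‖S e J p.2‖ ≤ _) 2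
    simp only [Function.comp]
    nlinarith [sq_nonneg (‖S e D p.2‖ - ‖S e (J \ D) (c • p.1)‖)]
  have a6 := En_nonneg (e := e) J (L.map Prod.fst)
  set x := En e J (L.map Prod.fst)
  have d0 : (0 : ℝ) ≤ D.card := Nat.cast_nonneg _
  have k1 : K ^ 2 ≤ K ^ 4 := pow_le_pow_right₀ hK (by norm_num)
  have k2 : K ^ 4 ≤ K ^ 6 := pow_le_pow_right₀ hK (by norm_num)
  have k3 : 0 < K ^ 4 := by positivity
  have a7 : K ^ 4 * (16972000 * (K ^ 2 * x)) ≤ K ^ 4 * (28196 * D.card) := by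
    have c1 := mul_le_mul_of_nonneg_right hM a6
    have c2 := mul_le_mul_of_nonneg_right k1 d0
    have c3 := mul_le_mul_of_nonneg_right k2 a6
    have c4 := mul_le_mul_of_nonneg_left a4 k3.le
    nlinarith
  have a8 := le_of_mul_le_mul_left a7 k3
  have : (6 : ℝ) * W.card ≤ D.card := by nlinarith
  exact_mod_cast this

theorem Inv.step (hI : Inv e M c D W) {x y : ℕ → 𝕜} (hb : Bad e M c D (x, y))
    (hy : ∃ j, y j ≠ 0) : ∃ j0, y j0 ≠ 0 ∧ Inv e M c D (insert j0 W) := by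
  obtain ⟨L, h1, h2, h3⟩ := hI
  obtain ⟨J0, a1, a2, a3, a4⟩ := hb
  simp only at a1 a2 a3 a4
  have hm : ∀ j, y j ≠ 0 → j ∈ J0.filter fun j => y j ≠ 0 := fun j hj =>
    mem_filter.2 ⟨by_contra fun h => hj (by
      have := a2 j
      rw [a1 j h, norm_zero] at this
      exact norm_le_zero_iff.1 this), hj⟩
  obtain ⟨j0, hj0, hmin⟩ := exists_min_image (J0.filter fun j => y j ≠ 0)
    (fun j => (1 - prof (L.map Prod.snd) j) / ‖y j‖ ^ 2) ⟨_, hm _ hy.choose_spec⟩
  have hy0 : y j0 ≠ 0 := (mem_filter.1 hj0).2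
  set δ := (1 - prof (L.map Prod.snd) j0) / ‖y j0‖ ^ 2 with hδ
  have hδ0 : 0 ≤ δ := div_nonneg (by linarith [h2 j0]) (by positivity)
  have e1 : ∀ j, prof ((((√δ : 𝕜) • x, (√δ : 𝕜) • y) :: L).map Prod.snd) j =
      δ * ‖y j‖ ^ 2 + prof (L.map Prod.snd) j := fun j => by
    simp [prof, norm_smul, mul_pow, Real.sq_sqrt hδ0]
  refine ⟨j0, hy0, ((√δ : 𝕜) • x, (√δ : 𝕜) • y) :: L, fun p hp => ?_, fun j => ?_, fun j hj => ?_⟩
  · rcases List.mem_cons.1 hp with rfl | hp
    · refine ⟨J0, fun j hj => by simp [a1 j hj], fun j => ?_, fun j hj => ?_, ?_⟩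
      · simp only [Pi.smul_apply, norm_smul]
        exact mul_le_mul_of_nonneg_left (a2 j) (norm_nonneg _)
      · simp only [Pi.smul_apply, smul_eq_mul, a3 j hj]; ring
      · simp only [S_smul, norm_smul]
        rw [mul_left_comm]
        exact mul_le_mul_of_nonneg_left a4 (norm_nonneg _)
    · exact h1 p hp
  · rw [e1]
    by_cases hj : y j = 0
    · simpa [hj] using h2 j
    · have := hmin j (hm j hj)
      rw [le_div_iff₀ (by positivity)] at this
      linarith
  · rw [e1]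
    rcases mem_insert.1 hj with rfl | hj
    · rw [hδ, div_mul_cancel₀ _ (by positivity)]; linarith
    · have := h3 j hj
      have : 0 ≤ δ * ‖y j‖ ^ 2 := by positivity
      linarith

theorem Inv.step' (hI : Inv e M c D W) (hM : 0 ≤ M) {U F : Finset ℕ} {a : ℕ → 𝕜} (hF : F ⊆ U)
    (hc : ∀ j ∈ U, j ∉ D → (j ∈ F → c = 1) ∧ (j ∉ F → c = 0)) (h : M * ‖S e U a‖ < ‖S e F a‖) :
    ∃ j0 ∈ F, Inv e M c D (insert j0 W) := by
  have e1 : S e U (fun j => if j ∈ U then a j else 0) = S e U a := S_congr fun j hj => if_pos hj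
  have e2 : S e U (fun j => if j ∈ F then a j else 0) = S e F a := by
    rw [S_subset hF fun j _ hj => if_neg hj]
    exact S_congr fun j hj => if_pos hj
  obtain ⟨j0, h1, h2⟩ := hI.step (x := fun j => if j ∈ U then a j else 0)
    (y := fun j => if j ∈ F then a j else 0) ⟨U, fun j hj => if_neg hj, fun j => by
      by_cases hj : j ∈ F
      · simp [hj, hF hj]
      · simp [hj], fun j hj => by
      by_cases hU : j ∈ U
      · by_cases hj' : j ∈ F
        · simp [hj', hU, (hc j hU hj).1 hj']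
        · simp [hj', (hc j hU hj).2 hj']
      · have : j ∉ F := fun h => hU (hF h)
        simp [hU, this], by simp only [e1, e2]; exact h.le⟩ (by
      by_contra h0
      push Not at h0
      rw [← e2, S_subset (empty_subset U) fun j _ _ => h0 j] at h
      have : 0 ≤ M * ‖S e U a‖ := by positivity
      simp [S] at h
      exact absurd h (not_lt.2 this))
  exact ⟨j0, by_contra fun h => h1 (if_neg h), h2⟩

theorem exists_top {T : Type} (P : T → Prop) (φ : T → ℕ) (N : ℕ) (h0 : ∃ t, P t)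
    (hN : ∀ t, P t → φ t ≤ N) : ∃ t, P t ∧ ∀ s, P s → φ s ≤ φ t := by
  have hb : BddAbove (φ '' {t | P t}) := ⟨N, by rintro _ ⟨t, ht, rfl⟩; exact hN t ht⟩
  obtain ⟨t, ht, e⟩ := Nat.sSup_mem (s := φ '' {t | P t}) ⟨_, h0.choose, h0.choose_spec, rfl⟩ hb
  exact ⟨t, ht, fun s hs => e ▸ le_csSup hb ⟨s, hs, rfl⟩⟩

theorem Good.ext' (h : Good 𝕜 e K) (hM : 17000000 * K ^ 6 ≤ M ^ 2) (hM0 : 0 ≤ M) (A : Finset ℕ) :
    ∃ B, A ⊆ B ∧ ∀ J, B ⊆ J → ∀ a : ℕ → 𝕜, ‖S e (J \ B) a‖ ≤ M * ‖S e J a‖ := by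
  obtain ⟨E, h1, h2⟩ := exists_top (fun E : Finset ℕ => Inv e M (1 : 𝕜) (A ∪ E) E) card A.card
    ⟨∅, Inv.empty⟩ fun E hE => by
      have := h.size hM hM0 (by simp) hE
      have := card_union_le A E
      omega
  refine ⟨A ∪ E, subset_union_left, fun J hJ a => by_contra fun hn => ?_⟩
  obtain ⟨j0, b1, b2⟩ := h1.step' hM0 sdiff_subset
    (fun j hj hj' => ⟨fun _ => rfl, fun h => absurd (mem_sdiff.2 ⟨hj, hj'⟩) h⟩) (not_le.1 hn)
  have := h2 _ (b2.mono (union_subset_union_right (subset_insert _ _)))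
  rw [card_insert_of_notMem fun h => (mem_sdiff.1 b1).2 (mem_union_right _ h)] at this
  omega

theorem Good.levels (h : Good 𝕜 e K) (hM : 17000000 * K ^ 6 ≤ M ^ 2) (hM0 : 0 ≤ M)
    (U : Finset ℕ) : ∃ ℓ : ℕ → ℕ, ∀ (r : ℕ) (a : ℕ → 𝕜),
      ‖S e (U.filter fun j => ℓ j < r) a‖ ≤ M * ‖S e U a‖ ∧
      ∀ F ⊆ U, (∀ j ∈ F, ℓ j = r) → ‖S e F a‖ ≤ M * ‖S e U a‖ := by
  let B : (ℕ → ℕ) → ℕ → Finset ℕ := fun ℓ r => U.filter fun j => r ≤ ℓ j
  let P : (ℕ → ℕ) → Prop := fun ℓ => ∃ E W : ℕ → Finset ℕ, ∀ r, Inv e M (1 : 𝕜) (B ℓ r) (E r) ∧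
    Inv e M (0 : 𝕜) (B ℓ r) (W r) ∧ ∀ j ∈ U, ℓ j = r + 1 → j ∈ W r ∪ E (r + 1)
  obtain ⟨ℓ, ⟨E, W, h1⟩, h2⟩ := exists_top P (fun ℓ => ∑ j ∈ U, ℓ j) (U.card * U.card)
    ⟨fun _ => 0, fun _ => ∅, fun _ => ∅, fun r => ⟨Inv.empty, Inv.empty, by simp⟩⟩ (by
      rintro ℓ ⟨E, W, h1⟩
      have b1 : ∀ k r, U.sup ℓ ≤ r + k → 2 * (B ℓ (r + 1)).card ≤ (B ℓ r).card := by
        intro k
        induction k with
        | zero =>
          intro r hr
          have : B ℓ (r + 1) = ∅ := filter_eq_empty_iff.2 fun j hj => by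
            have := le_sup (f := ℓ) hj
            omega
          simp [this]
        | succ k ih =>
          intro r hr
          have c1 := ih (r + 1) (by omega)
          have c2 := h.size hM hM0 (by simp) (h1 (r + 1)).1
          have c3 := h.size hM hM0 (by simp) (h1 r).2.1
          have c4 : B ℓ (r + 1) ⊆ (W r ∪ E (r + 1)) ∪ B ℓ (r + 1 + 1) := fun j hj => by
            have := mem_filter.1 hj
            rcases this.2.eq_or_lt with c | c
            · exact mem_union_left _ ((h1 r).2.2 j this.1 c.symm)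
            · exact mem_union_right _ (mem_filter.2 ⟨this.1, c⟩)
          have c5 := (card_le_card c4).trans (card_union_le _ _)
          have c6 := card_union_le (W r) (E (r + 1))
          omega
      have b2 : ∀ r, (B ℓ r).card = 0 ∨ (B ℓ r).card + r ≤ U.card := by
        intro r
        induction r with
        | zero => exact Or.inr (card_le_card (filter_subset _ _))
        | succ r ih =>
          have := b1 (U.sup ℓ) r (by omega)
          omega
      refine (sum_le_card_nsmul U ℓ U.card fun j hj => ?_).trans (le_of_eq (smul_eq_mul _ _))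
      have := card_pos.2 (show (B ℓ (ℓ j)).Nonempty from ⟨j, mem_filter.2 ⟨hj, le_rfl⟩⟩)
      have := b2 (ℓ j)
      omega)
  have hB : ∀ j0 s, ℓ j0 < s → ∀ r, B ℓ r ⊆ B (Function.update ℓ j0 s) r := fun j0 s hs r j hj => by
    have := mem_filter.1 hj
    refine mem_filter.2 ⟨this.1, ?_⟩
    rcases eq_or_ne j j0 with rfl | hne
    · rw [Function.update_self]; omega
    · rw [Function.update_of_ne hne]; exact this.2
  have hno : ∀ j0 ∈ U, ∀ s, ℓ j0 < s → ¬ P (Function.update ℓ j0 s) := fun j0 hj s hs hP => by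
    have := h2 _ hP
    rw [sum_update_of_mem hj, ← add_sum_erase U ℓ hj, sdiff_singleton_eq_erase] at this
    omega
  refine ⟨ℓ, fun r a => ⟨by_contra fun hn => ?_, fun F hF hF' => by_contra fun hn => ?_⟩⟩
  · obtain ⟨j0, b1, b2⟩ := (h1 r).1.step' hM0 (filter_subset (fun j => ℓ j < r) U) (fun j hj hj' =>
      ⟨fun _ => rfl, fun h => (h (mem_filter.2 ⟨hj, not_le.1 fun h' =>
        hj' (mem_filter.2 ⟨hj, h'⟩)⟩)).elim⟩) (not_le.1 hn)
    have b3 := mem_filter.1 b1
    refine hno j0 b3.1 r b3.2 ⟨Function.update E r (insert j0 (E r)), W, fun s => ⟨?_,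
      (h1 s).2.1.mono (hB j0 r b3.2 s), fun j hj hs => ?_⟩⟩
    · rcases eq_or_ne s r with rfl | hne
      · rw [Function.update_self]; exact b2.mono (hB j0 s b3.2 s)
      · rw [Function.update_of_ne hne]; exact (h1 s).1.mono (hB j0 r b3.2 s)
    · rcases eq_or_ne j j0 with rfl | hne
      · rw [Function.update_self] at hs
        rw [← hs, Function.update_self]
        exact mem_union_right _ (mem_insert_self _ _)
      · rw [Function.update_of_ne hne] at hs
        refine union_subset_union_right ?_ ((h1 s).2.2 j hj hs)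
        rcases eq_or_ne (s + 1) r with rfl | hne
        · rw [Function.update_self]; exact subset_insert _ _
        · rw [Function.update_of_ne hne]
  · obtain ⟨j0, b1, b2⟩ := (h1 r).2.1.step' hM0 hF (fun j hj hj' =>
      ⟨fun h => absurd (mem_filter.2 ⟨hj, (hF' j h).ge⟩) hj', fun _ => rfl⟩) (not_le.1 hn)
    have b3 : ℓ j0 < r + 1 := by rw [hF' j0 b1]; omega
    refine hno j0 (hF b1) (r + 1) b3 ⟨E, Function.update W r (insert j0 (W r)), fun s =>
      ⟨(h1 s).1.mono (hB j0 _ b3 s), ?_, fun j hj hs => ?_⟩⟩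
    · rcases eq_or_ne s r with rfl | hne
      · rw [Function.update_self]; exact b2.mono (hB j0 _ b3 s)
      · rw [Function.update_of_ne hne]; exact (h1 s).2.1.mono (hB j0 _ b3 s)
    · rcases eq_or_ne j j0 with rfl | hne
      · rw [Function.update_self] at hs
        obtain rfl : r = s := by omega
        rw [Function.update_self]
        exact mem_union_left _ (mem_insert_self _ _)
      · rw [Function.update_of_ne hne] at hs
        refine union_subset_union_left ?_ ((h1 s).2.2 j hj hs)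
        rcases eq_or_ne s r with rfl | hne
        · rw [Function.update_self]; exact subset_insert _ _
        · rw [Function.update_of_ne hne]

end Pool.Agent.Lib.MP_a2b538_an.HS
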