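import Mathlib
import Pool.Agent.Lib.MP_a2b538_an.HS.Inv
import Pool.Agent.Lib.MP_a2b538_an.HS.Enum

namespace Pool.Agent.Lib.MP_a2b538_an.HS

open Finset

variable {𝕜 : Type} [RCLike 𝕜] {X : Type} [NormedAddCommGroup X] [InnerProductSpace 𝕜 X]
  {e : ℕ → X} {K : ℝ}

theorem Good.perm (h : Good 𝕜 e K) : ∃ (π : ℕ ≃ ℕ) (C : ℝ), 0 ≤ C ∧ ∀ (N : ℕ) (J0 : Finset ℕ),
    ∃ J, J0 ⊆ J ∧ ∀ a : ℕ → 𝕜, ‖∑ i ∈ range N, a (π i) • e (π i)‖ ≤ C * ‖S e J a‖ := by
  have hK := h.one
  set M : ℝ := 5000 * K ^ 3 with hMd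
  have hM1 : 1 ≤ M := by
    have := one_le_pow₀ (n := 3) hK
    linarith
  have hM0 : 0 ≤ M := by linarith
  have hM : 17000000 * K ^ 6 ≤ M ^ 2 := by
    have : 0 ≤ K ^ 6 := by positivity
    rw [hMd]; nlinarith
  choose ex hex1 hex2 using h.ext' hM hM0
  choose lev hlev using h.levels hM hM0
  obtain ⟨C, C0, Cs⟩ : ∃ C : ℕ → Finset ℕ, C 0 = ∅ ∧ ∀ n, C (n + 1) = ex (insert n (C n)) :=
    ⟨fun n => Nat.rec ∅ (fun n B => ex (insert n B)) n, rfl, fun _ => rfl⟩
  have Cm : Monotone C := monotone_nat_of_le_succ fun n =>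
    Cs n ▸ (subset_insert n (C n)).trans (hex1 _)
  have Cb : ∀ n J, C n ⊆ J → ∀ a : ℕ → 𝕜, ‖S e (J \ C n) a‖ ≤ M * ‖S e J a‖ := by
    intro n J hJ a
    cases n with
    | zero =>
      rw [C0, sdiff_empty]
      exact le_mul_of_one_le_left (norm_nonneg _) hM1
    | succ n =>
      rw [Cs] at hJ ⊢
      exact hex2 _ J hJ a
  have Ce : ∀ j, ∃ n, j ∈ C (n + 1) := fun j => ⟨j, Cs j ▸ hex1 _ (mem_insert_self _ _)⟩
  let blk : ℕ → ℕ := fun j => Nat.find (Ce j)
  have b1 : ∀ j n, j ∈ C n ↔ blk j < n := by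
    intro j n
    constructor
    · intro hj
      cases n with
      | zero => exact absurd (C0 ▸ hj) (notMem_empty j)
      | succ n => exact Nat.lt_succ_of_le (Nat.find_min' (Ce j) hj)
    · intro hj
      exact Cm hj (Nat.find_spec (Ce j))
  let key : ℕ → ℕ ×ₗ ℕ := fun j => toLex (blk j, lev (C (blk j + 1) \ C (blk j)) j)
  obtain ⟨π, hπ⟩ := exists_perm key fun j => (C (blk j + 1)).finite_toSet.subset fun i hi => by
    refine mem_coe.2 ((b1 i _).2 ?_)
    rcases Prod.Lex.toLex_le_toLex.1 hi with c | c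
    · exact Nat.lt_succ_of_lt c
    · exact Nat.lt_succ_of_le c.1.le
  refine ⟨π, 1 + M + 4 * M ^ 2, by positivity, fun N J0 => ?_⟩
  cases N with
  | zero => exact ⟨J0, Subset.rfl, fun a => by simp; positivity⟩
  | succ N =>
    set n := blk (π N) with hn
    set U := C (n + 1) \ C n with hU
    set r := lev U (π N) with hr
    set A := (range (N + 1)).image π with hA
    have hUm : ∀ j, j ∈ U ↔ blk j = n := fun j => by
      rw [hU, mem_sdiff, b1, b1]; omega
    have A1 : ∀ j ∈ A, blk j < n ∨ (blk j = n ∧ lev U j ≤ r) := by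
      intro j hj
      obtain ⟨i, hi, rfl⟩ := mem_image.1 hj
      rcases Prod.Lex.toLex_le_toLex.1 (hπ (Nat.le_of_lt_succ (mem_range.1 hi))) with c | c
      · exact Or.inl c
      · have c1 : blk (π i) = n := c.1
        have c2 := c.2
        simp only [c1] at c2
        exact Or.inr ⟨c1, c2⟩
    have A2 : ∀ j, blk j < n ∨ (blk j = n ∧ lev U j < r) → j ∈ A := by
      intro j hj
      obtain ⟨i, rfl⟩ := π.surjective j
      refine mem_image_of_mem _ (mem_range.2 (Nat.lt_succ_of_lt (hπ.reflect_lt ?_)))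
      refine Prod.Lex.toLex_lt_toLex.2 ?_
      rcases hj with c | c
      · exact Or.inl c
      · refine Or.inr ⟨c.1, ?_⟩
        simp only [c.1]
        exact c.2
    refine ⟨J0 ∪ C (n + 1), subset_union_left, fun a => ?_⟩
    set J := J0 ∪ C (n + 1)
    have hJ : C (n + 1) ⊆ J := subset_union_right
    have hC : C n ⊆ C (n + 1) := Cm (Nat.le_succ n)
    have e0 : ∑ i ∈ range (N + 1), a (π i) • e (π i) = S e A a :=
      (sum_image (f := fun j => a j • e j) fun _ _ _ _ h => π.injective h).symm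
    set F := A.filter fun j => blk j = n ∧ lev U j = r with hF
    have e1 : A = (C n ∪ U.filter fun j => lev U j < r) ∪ F := by
      ext j
      simp only [hF, mem_union, mem_filter, b1, hUm]
      have := A1 j
      have := A2 j
      by_cases hj : j ∈ A
      · simp only [hj, true_and, true_iff, forall_const] at *; omega
      · simp only [hj, false_and, or_false, false_iff] at *; tauto
    have e2 : S e A a = S e (C n) a + S e (U.filter fun j => lev U j < r) a + S e F a := by
      rw [← S_union, ← S_union, ← e1]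
      · refine disjoint_left.2 fun j h1 h2 => ?_
        simp only [hF, mem_union, mem_filter, b1, hUm] at h1 h2
        omega
      · refine disjoint_left.2 fun j h1 h2 => ?_
        simp only [mem_filter, b1, hUm] at h1 h2
        omega
    have c1 := Cb n J (hC.trans hJ) a
    have c2 := Cb (n + 1) J hJ a
    rw [S_sdiff (hC.trans hJ)] at c1
    rw [S_sdiff hJ] at c2
    have c3 : ‖S e (C n) a‖ ≤ (1 + M) * ‖S e J a‖ := by
      have := norm_sub_le (S e J a) (S e J a - S e (C n) a)
      rw [sub_sub_cancel] at this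
      linarith
    have c4 : ‖S e U a‖ ≤ 2 * M * ‖S e J a‖ := by
      have := norm_sub_le (S e J a - S e (C n) a) (S e J a - S e (C (n + 1)) a)
      rw [sub_sub_sub_cancel_left, ← S_sdiff hC] at this
      linarith
    have c5 := (hlev U r a).1
    have c6 := (hlev U r a).2 F (fun j hj => (hUm j).2 (mem_filter.1 hj).2.1)
      fun j hj => (mem_filter.1 hj).2.2
    have c7 := mul_le_mul_of_nonneg_left c4 hM0
    rw [e0, e2]
    refine norm_add₃_le.trans ?_
    nlinarith

end Pool.Agent.Lib.MP_a2b538_an.HS
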