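import Mathlib
import Pool.Agent.Lib.MP_a2b538_an.HS.Perm

namespace Pool.Agent.Lib.MP_a2b538_an.HS

open Finset Filter Topology

variable {𝕜 : Type} [RCLike 𝕜] {X : Type} [NormedAddCommGroup X] [InnerProductSpace 𝕜 X]
  {e : ℕ → X} {f : ℕ → X →L[𝕜] 𝕜}

theorem coord_S (bi : ∀ n k, f n (e k) = if n = k then 1 else 0) (A : Finset ℕ) (a : ℕ → 𝕜)
    (n : ℕ) : f n (S e A a) = if n ∈ A then a n else 0 := by
  simp [S, map_sum, bi]

theorem exists_S (hd : Dense (Submodule.span 𝕜 (Set.range e) : Set X)) (x : X) {ε : ℝ}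
    (hε : 0 < ε) : ∃ (A : Finset ℕ) (a : ℕ → 𝕜), (∀ n ∈ A, a n ≠ 0) ∧ ‖x - S e A a‖ < ε := by
  obtain ⟨y, h1, h2⟩ := hd.exists_dist_lt x hε
  obtain ⟨c, rfl⟩ := Finsupp.mem_span_range_iff_exists_finsupp.1 h1
  exact ⟨c.support, c, fun n hn => Finsupp.mem_support_iff.1 hn, by rwa [dist_eq_norm] at h2⟩

theorem cont_S (A : Finset ℕ) : Continuous fun x => S e A fun n => f n x := by
  unfold S; fun_prop

/-- `G` is a greedy set of `x` with a gap -/
def Gap (f : ℕ → X →L[𝕜] 𝕜) (G : Finset ℕ) (x : X) : Prop :=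
  ∃ δ : ℝ, 0 < δ ∧ ∀ n ∈ G, ∀ k, k ∉ G → ‖f k x‖ + δ ≤ ‖f n x‖

theorem Gap.isOpen {Φ : ℝ} (hΦ : 0 < Φ) (hf : ∀ n x, ‖f n x‖ ≤ Φ * ‖x‖) (G : Finset ℕ) :
    IsOpen {x | Gap f G x} := by
  refine Metric.isOpen_iff.2 ?_
  rintro x ⟨δ, hδ, h⟩
  refine ⟨δ / (4 * Φ), by positivity, fun y hy => ⟨δ / 2, by positivity, fun n hn k hk => ?_⟩⟩
  rw [mem_ball_iff_norm, lt_div_iff₀ (by positivity)] at hy
  have h1 := h n hn k hk
  have h2 := hf n (y - x)
  have h3 := hf k (y - x)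
  rw [map_sub] at h2 h3
  have h4 := norm_sub_norm_le (f k y) (f k x)
  have h5 := norm_sub_norm_le (f n x) (f n y)
  rw [norm_sub_rev] at h5
  linarith

theorem pointwise (hd : Dense (Submodule.span 𝕜 (Set.range e) : Set X))
    (bi : ∀ n k, f n (e k) = if n = k then 1 else 0) {Φ : ℝ} (hΦ : 0 < Φ)
    (hf : ∀ n x, ‖f n x‖ ≤ Φ * ‖x‖) (x : X)
    (hq : ∀ (D : Set ℕ) (ρ : ℕ → ℕ), IsLowerSet D → Set.InjOn ρ D → ρ '' D = {n | f n x ≠ 0} →
      (∀ j ∈ D, ∀ k ∈ D, j < k → ‖f (ρ k) x‖ ≤ ‖f (ρ j) x‖) →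
      Tendsto (fun N => ∑ j ∈ Finset.range N, D.indicator (fun j => f (ρ j) x • e (ρ j)) j)
        atTop (𝓝 x)) :
    ∃ m : ℕ, ∀ G, Gap f G x → ‖S e G fun n => f n x‖ ≤ m := by
  obtain ⟨D, ρ, h1, h2, h3, h4⟩ := exists_enum {n | f n x ≠ 0}
    (fun n => OrderDual.toDual ‖f n x‖) fun j hj => by
      have hp : 0 < ‖f j x‖ := norm_pos_iff.2 hj
      obtain ⟨A, a, -, hA⟩ := exists_S hd x (div_pos hp hΦ)
      refine A.finite_toSet.subset fun i hi => by_contra fun hn => ?_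
      have c1 := hf i (x - S e A a)
      rw [map_sub, coord_S bi, if_neg (fun h => hn (mem_coe.2 h)), sub_zero] at c1
      have c2 : ‖f j x‖ ≤ ‖f i x‖ := hi.2
      rw [lt_div_iff₀ hΦ] at hA
      linarith
  obtain ⟨R, hR⟩ := (Metric.isBounded_range_of_tendsto _
    (hq D ρ h1 h2 h3 fun j hj k hk h => h4 j hj k hk h)).exists_norm_le
  obtain ⟨m, hm⟩ := exists_nat_ge R
  refine ⟨m, fun G ⟨δ, hδ, hG⟩ => le_trans (hR _ ?_) hm⟩
  obtain ⟨k0, hk0⟩ := Infinite.exists_notMem_finset G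
  have hGs : ∀ n ∈ G, n ∈ ρ '' D := fun n hn => by
    rw [h3]
    have := hG n hn k0 hk0
    exact norm_pos_iff.1 (by linarith [norm_nonneg (f k0 x)])
  have hfin : {j | j ∈ D ∧ ρ j ∈ G}.Finite :=
    Set.Finite.of_finite_image (G.finite_toSet.subset (by rintro _ ⟨j, hj, rfl⟩; exact hj.2))
      (h2.mono fun j hj => hj.1)
  have hlow : ∀ j, j ∈ D ∧ ρ j ∈ G → ∀ i ≤ j, i ∈ D ∧ ρ i ∈ G := fun j hj i hi => by
    refine ⟨h1 hi hj.1, by_contra fun hn => ?_⟩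
    rcases hi.eq_or_lt with rfl | hlt
    · exact hn hj.2
    · have c1 : ‖f (ρ j) x‖ ≤ ‖f (ρ i) x‖ := h4 i (h1 hi hj.1) j hj.1 hlt
      linarith [hG _ hj.2 _ hn]
  have hex : ∃ N, ¬ (N ∈ D ∧ ρ N ∈ G) := by
    obtain ⟨N, hN⟩ := hfin.exists_notMem
    exact ⟨N, hN⟩
  classical
  have hN : ∀ j, j < Nat.find hex ↔ j ∈ D ∧ ρ j ∈ G := fun j =>
    ⟨fun h => not_not.1 (Nat.find_min hex h), fun h => not_le.1 fun h' =>
      Nat.find_spec hex (hlow j h _ h')⟩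
  refine ⟨Nat.find hex, ?_⟩
  simp only [S]
  rw [sum_congr rfl fun j hj => Set.indicator_of_mem ((hN j).1 (mem_range.1 hj)).1 _]
  refine sum_nbij ρ (fun j hj => ((hN j).1 (mem_range.1 hj)).2)
    (h2.mono fun j hj => ((hN j).1 (mem_range.1 hj)).1) (fun n hn => ?_) fun _ _ => rfl
  obtain ⟨j, hj, rfl⟩ := hGs n hn
  exact ⟨j, mem_coe.2 (mem_range.2 ((hN j).2 ⟨hj, hn⟩)), rfl⟩

theorem uniform [CompleteSpace X] (hd : Dense (Submodule.span 𝕜 (Set.range e) : Set X))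
    (bi : ∀ n k, f n (e k) = if n = k then 1 else 0) {Φ C : ℝ} (hΦ : 0 < Φ)
    (hf : ∀ n x, ‖f n x‖ ≤ Φ * ‖x‖) (hC : ∀ n, ‖e n‖ ≤ C)
    (hq : ∀ x, ∃ m : ℕ, ∀ G, Gap f G x → ‖S e G fun n => f n x‖ ≤ m) :
    ∃ K, 1 ≤ K ∧ ∀ x G, Gap f G x → ‖S e G fun n => f n x‖ ≤ K * ‖x‖ := by
  have hC0 : 0 ≤ C := (norm_nonneg _).trans (hC 0)
  obtain ⟨m, x1, hx1⟩ := nonempty_interior_of_iUnion_of_closed
    (f := fun m : ℕ => ⋂ G, {x | Gap f G x}ᶜ ∪ {x | ‖S e G fun n => f n x‖ ≤ m})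
    (fun m => isClosed_iInter fun G => (Gap.isOpen hΦ hf G).isClosed_compl.union
      (isClosed_le (cont_S G).norm continuous_const))
    (Set.eq_univ_of_forall fun x => by
      obtain ⟨m, hm⟩ := hq x
      exact Set.mem_iUnion.2 ⟨m, Set.mem_iInter.2 fun G => or_iff_not_imp_left.2 fun h =>
        hm G (not_not.1 h)⟩)
  obtain ⟨ε, hε, hb⟩ := Metric.mem_nhds_iff.1 (mem_interior_iff_mem_nhds.1 hx1)
  obtain ⟨A, b, hb0, hA⟩ := exists_S hd x1 (half_pos hε)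
  obtain ⟨β, hβ, hβ'⟩ : ∃ β : ℝ, 0 < β ∧ ∀ n ∈ A, β ≤ ‖b n‖ := by
    rcases A.eq_empty_or_nonempty with rfl | hne
    · exact ⟨1, one_pos, by simp⟩
    · obtain ⟨i, hi, h⟩ := exists_min_image A (fun n => ‖b n‖) hne
      exact ⟨_, norm_pos_iff.2 (hb0 i hi), h⟩
  have hP : ∀ B ⊆ A, ∀ x, ‖S e B fun n => f n x‖ ≤ A.card * (Φ * C) * ‖x‖ := fun B hB x => by
    refine (norm_sum_le _ _).trans ((sum_le_card_nsmul B _ (Φ * C * ‖x‖) fun n _ => ?_).trans ?_)
    · rw [norm_smul, mul_right_comm]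
      exact mul_le_mul (hf n x) (hC n) (norm_nonneg _) (by positivity)
    · rw [nsmul_eq_mul, mul_assoc (A.card : ℝ)]
      gcongr
  set L := A.card * (Φ * C) with hL
  have hL0 : 0 ≤ L := by positivity
  set η := min (ε / 2 / (1 + L)) (β / 2 / Φ) with hη
  have hη0 : 0 < η := by positivity
  have hη1 : η * (1 + L) ≤ ε / 2 := (le_div_iff₀ (by positivity)).1 (min_le_left _ _)
  have hη2 : η * Φ ≤ β / 2 := (le_div_iff₀ hΦ).1 (min_le_right _ _)
  refine ⟨1 + L + (m + ‖S e A b‖) / η, by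
    have : 0 ≤ (m + ‖S e A b‖) / η := by positivity
    linarith, fun x G ⟨δ, hδ, hG⟩ => ?_⟩
  rcases eq_or_ne x 0 with rfl | hx
  · simp [S]
  have hx0 : 0 < ‖x‖ := norm_pos_iff.2 hx
  set t := η / ‖x‖ with ht
  have ht0 : 0 < t := by positivity
  have htx : t * ‖x‖ = η := div_mul_cancel₀ _ hx0.ne'
  set z := S e A b + (t : 𝕜) • (x - S e A fun n => f n x) with hz
  have z1 : ∀ n ∈ A, f n z = b n := fun n hn => by simp [hz, coord_S bi, hn]
  have z2 : ∀ n, n ∉ A → f n z = t * f n x := fun n hn => by simp [hz, coord_S bi, hn]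
  have z3 : ∀ n, n ∉ A → ‖f n z‖ = t * ‖f n x‖ := fun n hn => by
    rw [z2 n hn, norm_mul, RCLike.norm_ofReal, abs_of_pos ht0]
  have z4 : z ∈ Metric.ball x1 ε := by
    rw [mem_ball_iff_norm', hz, ← sub_sub]
    refine (norm_sub_le _ _).trans_lt ?_
    rw [norm_smul, RCLike.norm_ofReal, abs_of_pos ht0]
    have c1 := (norm_sub_le x _).trans (add_le_add le_rfl (hP A Subset.rfl x))
    have c2 := mul_le_mul_of_nonneg_left c1 ht0.le
    have c3 : t * (‖x‖ + L * ‖x‖) = η * (1 + L) := by rw [← htx]; ring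
    linarith
  have z5 : Gap f (A ∪ G \ A) z := by
    refine ⟨min (β / 2) (t * δ), by positivity, fun n hn k hk => ?_⟩
    have k1 : k ∉ A := fun h => hk (mem_union_left _ h)
    have k2 : k ∉ G := fun h => hk (mem_union_right _ (mem_sdiff.2 ⟨h, k1⟩))
    rw [z3 k k1]
    rcases mem_union.1 hn with hn | hn
    · rw [z1 n hn]
      have c1 := mul_le_mul_of_nonneg_left (hf k x) ht0.le
      have c2 : t * (Φ * ‖x‖) = η * Φ := by rw [← htx]; ring
      linarith [hβ' n hn, min_le_left (β / 2) (t * δ)]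
    · rw [z3 n (mem_sdiff.1 hn).2]
      have c1 := mul_le_mul_of_nonneg_left (hG n (mem_sdiff.1 hn).1 k k2) ht0.le
      linarith [min_le_right (β / 2) (t * δ)]
  have z6 : ‖S e (A ∪ G \ A) fun n => f n z‖ ≤ m :=
    (Set.mem_iInter.1 (hb z4) _).resolve_left (not_not.2 z5)
  rw [S_union disjoint_sdiff, S_congr z1, S_congr (b := (t : 𝕜) • fun n => f n x)
    fun n hn => z2 n (mem_sdiff.1 hn).2, S_smul] at z6
  have z7 : t * ‖S e (G \ A) fun n => f n x‖ ≤ m + ‖S e A b‖ := by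
    have := norm_sub_le (S e A b + (t : 𝕜) • S e (G \ A) fun n => f n x) (S e A b)
    rw [add_sub_cancel_left, norm_smul, RCLike.norm_ofReal, abs_of_pos ht0] at this
    linarith
  have z8 : ‖S e (G \ A) fun n => f n x‖ ≤ (m + ‖S e A b‖) / η * ‖x‖ := by
    rw [div_mul_eq_mul_div, le_div_iff₀ hη0, ← htx]
    nlinarith
  have z9 : (S e G fun n => f n x) =
      (S e (G \ A) fun n => f n x) + S e (G ∩ A) fun n => f n x := by
    rw [← S_union (disjoint_sdiff_inter _ _), sdiff_union_inter]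
  rw [z9]
  refine (norm_add_le _ _).trans ?_
  linarith [hP (G ∩ A) inter_subset_right x]

theorem gr_of_gap (bi : ∀ n k, f n (e k) = if n = k then 1 else 0) {K : ℝ} (hK : 1 ≤ K)
    (h : ∀ x G, Gap f G x → ‖S e G fun n => f n x‖ ≤ K * ‖x‖) : Gr 𝕜 e (2 * K) := by
  intro U G a hG ha
  by_cases h0 : ∃ n ∈ G, a n = 0
  · obtain ⟨n, hn, h0⟩ := h0
    rw [S_subset hG fun k hk hk' => by simpa [h0] using ha n hn k hk hk']
    exact le_mul_of_one_le_left (norm_nonneg _) (by linarith)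
  push Not at h0
  obtain ⟨β, hβ, hβ'⟩ : ∃ β : ℝ, 0 < β ∧ ∀ n ∈ G, β ≤ ‖a n‖ := by
    rcases G.eq_empty_or_nonempty with rfl | hne
    · exact ⟨1, one_pos, by simp⟩
    · obtain ⟨i, hi, h⟩ := exists_min_image G (fun n => ‖a n‖) hne
      exact ⟨_, norm_pos_iff.2 (h0 i hi), h⟩
  set t := 1 / (2 * K) with ht
  have ht0 : 0 < t := by positivity
  set x := S e U a + (t : 𝕜) • S e G a with hx
  have x1 : ∀ n ∈ G, f n x = ((1 + t : ℝ) : 𝕜) * a n := fun n hn => by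
    simp [hx, coord_S bi, hn, hG hn, add_mul]
  have x2 := h x G ⟨t * β, by positivity, fun n hn k hk => by
    rw [x1 n hn, norm_mul, RCLike.norm_ofReal, abs_of_pos (by positivity)]
    have c1 : ‖f k x‖ ≤ ‖a n‖ := by
      by_cases hU : k ∈ U
      · simpa [hx, coord_S bi, hk, hU] using ha n hn k hU hk
      · simp [hx, coord_S bi, hk, hU]
    nlinarith [mul_le_mul_of_nonneg_left (hβ' n hn) ht0.le]⟩
  rw [S_congr (b := ((1 + t : ℝ) : 𝕜) • a) x1, S_smul, norm_smul, RCLike.norm_ofReal,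
    abs_of_pos (by positivity)] at x2
  have x3 : ‖x‖ ≤ ‖S e U a‖ + t * ‖S e G a‖ := by
    refine (norm_add_le _ _).trans (le_of_eq ?_)
    rw [norm_smul, RCLike.norm_ofReal, abs_of_pos ht0]
  have x4 := mul_le_mul_of_nonneg_left x3 (show 0 ≤ K by linarith)
  have x5 : K * t = 1 / 2 := by rw [ht]; field_simp
  have x6 : K * (t * ‖S e G a‖) = 1 / 2 * ‖S e G a‖ := by rw [← mul_assoc, x5]
  have x7 : 0 ≤ t * ‖S e G a‖ := by positivity
  linarith

theorem Good.schauder {K : ℝ} (h : Good 𝕜 e K)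
    (hd : Dense (Submodule.span 𝕜 (Set.range e) : Set X))
    (bi : ∀ n k, f n (e k) = if n = k then 1 else 0) : ∃ π : ℕ ≃ ℕ, ∀ x : X,
      Tendsto (fun N => ∑ n ∈ range N, f (π n) x • e (π n)) atTop (𝓝 x) := by
  obtain ⟨π, C, hC, hπ⟩ := h.perm
  have h1 : ∀ N x, ‖∑ n ∈ range N, f (π n) x • e (π n)‖ ≤ C * ‖x‖ := fun N x => by
    refine hd.induction (P := fun x => ‖∑ n ∈ range N, f (π n) x • e (π n)‖ ≤ C * ‖x‖)
      (fun y hy => ?_) (isClosed_le (by fun_prop) (by fun_prop)) x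
    obtain ⟨c, rfl⟩ := Finsupp.mem_span_range_iff_exists_finsupp.1 hy
    obtain ⟨J, hJ, h2⟩ := hπ N c.support
    have e1 : (c.sum fun i a => a • e i) = S e c.support c := rfl
    have e2 : ∀ n, f n (S e c.support c) = c n := fun n => by
      rw [coord_S bi]
      split_ifs with hn
      · rfl
      · exact (Finsupp.notMem_support_iff.1 hn).symm
    simp only [e1, e2]
    rw [← S_subset hJ fun j _ hj => Finsupp.notMem_support_iff.1 hj]
    exact h2 c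
  refine ⟨π, fun x => Metric.tendsto_atTop.2 fun ε hε => ?_⟩
  obtain ⟨A, a, -, hA⟩ := exists_S hd x (show 0 < ε / (C + 1) by positivity)
  refine ⟨A.sup π.symm + 1, fun N hN => ?_⟩
  have e1 : ∑ n ∈ range N, f (π n) (S e A a) • e (π n) = S e A a := by
    rw [← sum_image (s := range N) (g := π) (f := fun j => f j (S e A a) • e j)
      fun _ _ _ _ h => π.injective h]
    have hs : A ⊆ (range N).image π := fun j hj => mem_image.2 ⟨π.symm j, mem_range.2 (by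
      have := le_sup (f := π.symm) hj
      omega), by simp⟩
    exact (S_subset (a := fun j => f j (S e A a)) hs fun j _ hj => by
      rw [coord_S bi, if_neg hj]).trans (S_congr fun j hj => by rw [coord_S bi, if_pos hj])
  have e2 : ∑ n ∈ range N, f (π n) x • e (π n) - x =
      ∑ n ∈ range N, f (π n) (x - S e A a) • e (π n) - (x - S e A a) := by
    simp only [map_sub, sub_smul, sum_sub_distrib, e1]; abel
  rw [dist_eq_norm, e2]
  rw [lt_div_iff₀ (by positivity)] at hA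
  linarith [norm_sub_le (∑ n ∈ range N, f (π n) (x - S e A a) • e (π n)) (x - S e A a),
    h1 N (x - S e A a)]

theorem coeff_unique (bi : ∀ n k, f n (e k) = if n = k then 1 else 0) (π : ℕ ≃ ℕ) {x : X}
    {a : ℕ → 𝕜} (h : Tendsto (fun N => ∑ n ∈ range N, a n • e (π n)) atTop (𝓝 x)) (k : ℕ) :
    a k = f (π k) x := by
  refine tendsto_nhds_unique (tendsto_const_nhds.congr' ?_) (((f (π k)).continuous.tendsto x).comp h)
  filter_upwards [eventually_gt_atTop k] with N hN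
  simp [map_sum, bi, hN]

end Pool.Agent.Lib.MP_a2b538_an.HS
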